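import Pool.Agent.H56.ALL.Rt

/-!
# The rates of the last coordinate, from the bound for the deficits

`FTQ n x`: in the classes of the exactness theorem with small slack, the digits `Q₁ J, …, Q₂ J` of
the last coordinate, given the digits before and all the other coordinates, have at least the rate
`1 - x` above the number of the closed labels. `ftq_of_ext`: it follows from `Ext n x`.
-/

set_option autoImplicit false

namespace Pool.FRX

open Set MeasureTheory Pool.KA Pool.GEN Pool.STR Pool.LEV Pool.GEN.N83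
open Pool.ALL Pool.ONE
open Pool.LBT (LSys ThrOf Slo Tri)
open Pool.Agent.H49.Ent Pool.Agent.H32.Dense Pool.STK Pool.KSAT Pool.K2S Pool.PB Pool.S6C

variable {n m J : ℕ}

theorem X_div (F : Fam n J) {r r' : ℕ} (h : r ≤ r') (k : Fin n) (ω : F.Ω) :
    F.X r' ω k / 2 ^ (r' - r) = F.X r ω k := by
  obtain ⟨a, rfl⟩ := Nat.exists_eq_add_of_le h
  have e1 : r + a - r = a := by omega
  rw [e1]
  show ⌊(2 : ℝ) ^ (r + a) * F.x ω k⌋ / 2 ^ a = ⌊(2 : ℝ) ^ r * F.x ω k⌋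
  have e2 : ((2 : ℤ) ^ a) = ((2 ^ a : ℕ) : ℤ) := by push_cast; rfl
  rw [e2, ← Int.floor_div_natCast]
  congr 1
  push_cast
  rw [pow_add]
  field_simp

/-- The entropy of the digits of the coordinate `i` given the digits before and the other
coordinates. -/
theorem ch_two (F : Fam n J) {q : F.Ω → ℝ} (hq : ∀ ω, 0 ≤ q ω) (i : Fin n) {k₁ k₂ : ℕ}
    (h : k₁ ≤ k₂) :
    CH q (fun ω => F.X k₂ ω i)
      (fun ω => ((F.X k₁ ω i, Function.update (F.X J ω) i 0), F.W ω)) =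
      CH q (fun ω => F.X k₂ ω i) (fun ω => oth i J F (ptr F J ω)) -
        CH q (fun ω => F.X k₁ ω i) (fun ω => oth i J F (ptr F J ω)) := by
  have h1 := CH_chain hq (fun ω => F.X k₂ ω i) (fun ω => F.X k₁ ω i)
    (fun ω => oth i J F (ptr F J ω))
  have h2 : CH q (fun ω => F.X k₂ ω i) (fun ω => oth i J F (ptr F J ω)) =
      CH q (fun ω => (F.X k₂ ω i, F.X k₁ ω i)) (fun ω => oth i J F (ptr F J ω)) := by
    refine CH_congr hq ?_ ?_ ?_ ?_
    · intro ω ω' _ _ e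
      have e0 := Prod.ext_iff.1 e
      have e1 := X_div F h i ω
      have e2 := X_div F h i ω'
      have e3 : F.X k₂ ω i = F.X k₂ ω' i := e0.1
      refine Prod.ext e3 ?_
      show F.X k₁ ω i = F.X k₁ ω' i
      rw [← e1, ← e2, e3]
    · intro ω ω' _ _ e
      exact (Prod.ext_iff.1 (Prod.ext_iff.1 e).1).1
    · intro ω ω' _ _ e
      exact e
    · intro ω ω' _ _ e
      exact e
  have h3 : CH q (fun ω => F.X k₂ ω i)
      (fun ω => ((F.X k₁ ω i, Function.update (F.X J ω) i 0), F.W ω)) =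
      CH q (fun ω => F.X k₂ ω i) (fun ω => (F.X k₁ ω i, oth i J F (ptr F J ω))) := by
    refine CH_congr hq ?_ ?_ ?_ ?_
    · intro ω ω' _ _ e
      exact (Prod.ext_iff.1 e).1
    · intro ω ω' _ _ e
      exact (Prod.ext_iff.1 e).1
    · intro ω ω' _ _ e
      have e1 := Prod.ext_iff.1 e
      have e2 := Prod.ext_iff.1 e1.1
      exact Prod.ext e2.1 (Prod.ext e2.2 e1.2)
    · intro ω ω' _ _ e
      have e1 := Prod.ext_iff.1 e
      have e2 := Prod.ext_iff.1 e1.2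
      exact Prod.ext (Prod.ext e1.1 e2.1) e2.2
  rw [h3, h2, h1]
  ring

/-- The rows above the threshold of a macroscopic window. -/
theorem rowsAB {P : ℝ → ℝ → ℝ} (hP : Law P) {r : ℝ → ℝ} (hl : LipschitzWith 1 r)
    (hm : Monotone r) {w x a b : ℝ} (hw : 0 < w) (hw1 : w ≤ 1) (hG0 : 0 ≤ P w w)
    (ha : P w w ≤ a) (hab : a ≤ b) (hb : b ≤ 1) (hF : FullE P r x) :
    (1 - x) * (b - a) ≤ r b - r a := by
  have h1 : ∫ t in a..b, deriv r t = r b - r a := by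
    refine AbsolutelyContinuousOnInterval.integral_deriv_eq_sub ?_
    exact (hl.lipschitzOnWith (s := Set.uIcc a b)).absolutelyContinuousOnInterval
  have h2 : ∫ _ in a..b, (1 - x) = (1 - x) * (b - a) := by
    rw [intervalIntegral.integral_const, smul_eq_mul]
    ring
  rw [← h1, ← h2, intervalIntegral.integral_of_le hab, intervalIntegral.integral_of_le hab]
  have hint : IntegrableOn (deriv r) (Ioc a b) := by
    refine Integrable.mono' (g := fun _ => (1 : ℝ)) (integrableOn_const (by simp) (by simp))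
      (measurable_deriv r).aestronglyMeasurable (Filter.Eventually.of_forall fun t => ?_)
    rw [Real.norm_eq_abs, abs_of_nonneg hm.deriv_nonneg]
    exact deriv_le_one hl t
  refine setIntegral_mono_ae_restrict (integrableOn_const (by simp) (by simp)) hint ?_
  rw [Filter.EventuallyLE, ae_restrict_iff' measurableSet_Ioc]
  have hb' : ∀ᵐ Q : ℝ, Q ≠ 1 := by simp [ae_iff, measure_singleton]
  filter_upwards [hF, hm.ae_differentiableAt, hb'] with Q hQ hd hQ1 hI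
  have h0 : 0 < Q := (hG0.trans ha).trans_lt hI.1
  have hQ2 : Q < 1 := lt_of_le_of_ne (hI.2.trans hb) hQ1
  have h3 : 0 < Lv P (Q, 0) := by
    rw [Lv_eq le_rfl zero_le_one h0.le hQ2.le]
    refine lt_of_lt_of_le hw (le_csInf ⟨1, one_mem zero_le_one⟩ ?_)
    rintro c ⟨a1, a2, a3⟩
    by_contra hc
    push Not at hc
    rcases a3 with a3 | a3
    · rw [sub_zero] at a3
      have := hP.mono a1 le_rfl hc.le hc.le le_rfl hw1
      linarith [hI.1]
    · linarith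
  exact hQ h0 hQ2 h3 hd

/-- **The rates of the last coordinate, for classes**: the digits `Q₁ J, …, Q₂ J` given the digits
before and the other coordinates, above the number of the closed labels. -/
def FTQ (n : ℕ) (x : ℝ) : Prop :=
  ∀ ρ al : ℝ, 0 < ρ → 0 < al → ∀ g₀ : ℝ → ℝ, (∀ ε : ℝ, 0 < ε → 0 < g₀ ε) →
    ∀ (s : Fin n → ℝ) (d : ℕ → ℝ), NumX s d → ∃ e : ℝ, 0 < e ∧
    ∀ (K₀ : ℕ) (N : ℚ → ℚ → ℝ), ActM N al g₀ → ∀ S : PCl n, S.Ne →
    (∀ (τ : ℝ) (J : ℕ) (F : Fam n J) (A : F.Ω → Prop), S.St τ J F A → F.Tr ∧ F.Tm (τ * J) ∧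
      F.Rb (τ * J) ∧ Real.exp (-(τ * J)) ≤ Pe F.p A ∧ Gd F ∧ GraX K₀ e s J F ∧ Zc F) →
    (∀ l K : ℕ, e ≤ 1 / ((l : ℝ) + 1) →
      Bas S (fun J F A => ¬ BtrX s (d l) (1 / ((l : ℝ) + 1)) K J F A)) →
    (∀ k : Fin n, (k : ℕ) = 0 → ActB N S k) →
    ∀ i : Fin n, (i : ℕ) + 1 = n → ∀ Q₁ Q₂ : ℝ, s i ≤ Q₁ → Q₁ ≤ Q₂ → Q₂ ≤ 1 →
    ¬ Bas S (fun J F A => CH (Pool.Agent.H49.Ent.cond F.p A True)
      (fun ω => F.X ⌊Q₂ * J⌋₊ ω i)
      (fun ω => ((F.X ⌊Q₁ * J⌋₊ ω i, Function.update (F.X J ω) i 0), F.W ω)) ≤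
      ((1 - x) * (Q₂ - Q₁) - ρ) * Real.log 2 * J)

/-- **The rates of the last coordinate.** -/
theorem ftq_of_ext {n : ℕ} (hn : 2 ≤ n) (hZ : ∀ k, 1 ≤ k → k < n → FZX k) {x : ℝ} (hx : 0 ≤ x)
    (hE : Ext n x) : FTQ n x := by
  intro ρ al hρ hal g₀ hg₀ s d hsd
  obtain ⟨e, he, hD⟩ := N34.diaN n hn hZ al g₀ s d hal hg₀ hsd (ρ / 4) (by linarith)
  refine ⟨e, he, ?_⟩
  intro K₀ N hN S hS hmem hbtr hact i hi Q₁ Q₂ hQ1 hQ12 hQ2 hbad
  have hil : i = lst hn := Fin.ext (by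
    show (i : ℕ) = n - 1
    omega)
  subst hil
  have hCl : ClX s d al g₀ e K₀ N S := ⟨hN, hS, hmem, hbtr, hact⟩
  obtain ⟨S', P, r, h1, h2, h3, h4⟩ := numx (hasThr_tgs (lst hn)) hCl
  obtain ⟨w, hw, hw1, h5⟩ := hD K₀ N S' h1 (P ()) h3
  have h7 := hE hn al g₀ s d hal hg₀ hsd e K₀ N S' he h1 (P ()) (r (lst hn)) h3 (h4 (lst hn))
  have h8 : 0 ≤ P () w w := hw.le.trans (h3.low () w w hw.le le_rfl hw1)
  have hs0 := hsd.s0 (lst hn)
  have hr := h4 (lst hn)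
  -- the rows
  have hrow : (1 - x) * (Q₂ - Q₁) - ρ / 4 ≤ r (lst hn) Q₂ - r (lst hn) Q₁ := by
    rcases le_total (Q₁ + ρ / 4) Q₂ with hc | hc
    · have a1 := rowsAB (h3.law ()) hr.lip hr.mono hw hw1 h8 (a := Q₁ + ρ / 4) (b := Q₂)
        (by linarith) hc hQ2 h7
      have a2 : r (lst hn) Q₁ ≤ r (lst hn) (Q₁ + ρ / 4) := hr.mono (by linarith)
      have a3 : (1 - x) * (ρ / 4) ≤ ρ / 4 := by nlinarith
      nlinarith
    · have a1 : r (lst hn) Q₁ ≤ r (lst hn) Q₂ := hr.mono hQ12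
      have a3 : (1 - x) * (Q₂ - Q₁) ≤ Q₂ - Q₁ := by nlinarith
      linarith
  have hl2 : 0 < Real.log 2 := Real.log_pos one_lt_two
  have hQ10 : 0 ≤ Q₁ := hs0.trans hQ1
  obtain ⟨τ₁, hτ₁, J₁, b1⟩ := hr.num Q₁ hQ10 (hQ12.trans hQ2) (ρ / 8 * Real.log 2) (by positivity)
  obtain ⟨τ₂, hτ₂, J₂, b2⟩ := hr.num Q₂ (hQ10.trans hQ12) hQ2 (ρ / 8 * Real.log 2) (by positivity)
  obtain ⟨τ₃, hτ₃, J₃, b3⟩ := hbad
  obtain ⟨J, hJ, F, A, hA⟩ := h1.ne (min (min τ₁ τ₂) τ₃) (lt_min (lt_min hτ₁ hτ₂) hτ₃)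
    (max (max J₁ J₂) (max J₃ 1))
  have c1 := b1 J ((le_max_left _ _).trans ((le_max_left _ _).trans hJ)) F A
    (S'.mono ((min_le_left _ _).trans (min_le_left _ _)) hA)
  have c2 := b2 J ((le_max_right _ _).trans ((le_max_left _ _).trans hJ)) F A
    (S'.mono ((min_le_left _ _).trans (min_le_right _ _)) hA)
  have c3 := b3 J ((le_max_left _ _).trans ((le_max_right _ _).trans hJ)) F A
    (h2 _ _ _ _ (S'.mono (min_le_right _ _) hA))
  have hJ1 : (1 : ℝ) ≤ J := by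
    exact_mod_cast (le_max_right _ _).trans ((le_max_right _ _).trans hJ)
  have hPA : 0 < Pe F.p A := lt_of_lt_of_le (Real.exp_pos _) (h1.mem _ _ _ _ hA).2.2.2.1
  have hkk : ⌊Q₁ * (J : ℝ)⌋₊ ≤ ⌊Q₂ * (J : ℝ)⌋₊ :=
    Nat.floor_le_floor (mul_le_mul_of_nonneg_right hQ12 (Nat.cast_nonneg J))
  have c4 := ch_two F (isLaw_cond F.isLaw hPA).nonneg (lst hn) hkk
  simp only at c3
  rw [c4] at c3
  replace c1 := abs_le.1 c1
  replace c2 := abs_le.1 c2
  have d1 : ((1 - x) * (Q₂ - Q₁) - ρ / 4) * (Real.log 2 * J) ≤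
      (r (lst hn) Q₂ - r (lst hn) Q₁) * (Real.log 2 * J) :=
    mul_le_mul_of_nonneg_right hrow (by positivity)
  have d2 : 0 < ρ / 2 * (Real.log 2 * J) := by positivity
  nlinarith [c1.1, c1.2, c2.1, c2.2, c3, d1, d2]

end Pool.FRX
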