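import Pool.Agent.H56.FRX.Low
import Pool.Agent.H56.FRX.Tot

/-!
# The rates of the last coordinate, for families with side information

`fzy_core`: from classes to families with side information, for the entropy of a function of the
position given another function of the position. `FZQ n x`: the rates of the last coordinate of a
single family with side information. `fzq_of : FTQ n x → FZQ n x`.
-/

set_option autoImplicit false

namespace Pool.FRX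

open Finset Real MvPolynomial
open Pool.Agent.H49.Ent Pool.Agent.H32.Dense Pool.STK Pool.KA Pool.KSAT Pool.K2S Pool.PB Pool.S6C
open Pool.ZCL Pool.GEN

variable {n J : ℕ}

/-- The class of the large events with few values of `y₁` given `y₂`. -/
def cntCly {κ₁ κ₂ : Type} (y₁ : ℕ → (Fin n → ℤ) → κ₁) (y₂ : ℕ → (Fin n → ℤ) → κ₂) (S : FCl n)
    (b' : ℝ) : PCl n where
  St := fun τ J F A => S.St τ F A ∧ CntC F.p (fun ω => y₁ J (F.X J ω))
    (fun ω => (y₂ J (F.X J ω), F.W ω)) (Real.exp (b' * J)) A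
  mono := fun h hA => ⟨hA.1.mono h, hA.2⟩
  res := fun hτ hA hB hP => ⟨S.toP.res hτ hA.1 hB hP, hA.2.sub hB⟩

/-- **From classes to families with side information**, for the entropy of a function `y₁` of the
position given a function `y₂` of the position. -/
theorem fzy_core {n : ℕ} {κ₁ κ₂ : Type} (y₁ : ℕ → (Fin n → ℤ) → κ₁) (y₂ : ℕ → (Fin n → ℤ) → κ₂)
    {c ρ e : ℝ} (hρ : 0 < ρ) {s : Fin n → ℝ} {d : ℕ → ℝ} {N : ℚ → ℚ → ℝ} {K₀ : ℕ}
    (hF : ∀ S : PCl n, S.Ne →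
      (∀ (τ : ℝ) (J : ℕ) (F : Fam n J) (A : F.Ω → Prop), S.St τ J F A → F.Tr ∧ F.Tm (τ * J) ∧
        F.Rb (τ * J) ∧ Real.exp (-(τ * J)) ≤ Pe F.p A ∧ Gd F ∧ GraX K₀ e s J F ∧ Zc F) →
      (∀ l K : ℕ, e ≤ 1 / ((l : ℝ) + 1) →
        Bas S (fun J F A => ¬ BtrX s (d l) (1 / ((l : ℝ) + 1)) K J F A)) →
      (∀ k : Fin n, (k : ℕ) = 0 → ActB N S k) →
      ¬ Bas S (fun J F A => CH (Pool.Agent.H49.Ent.cond F.p A True) (fun ω => y₁ J (F.X J ω))
        (fun ω => (y₂ J (F.X J ω), F.W ω)) ≤ (c - ρ / 2) * Real.log 2 * J))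
    (ψ : ℕ → ℝ) (hψ : ∀ i, 0 < ψ i) : ∃ η : ℝ, 0 < η ∧ ∃ M J₁ : ℕ, ∀ J ≥ J₁,
    ∀ G : Fam n J, G.Tm (η * J) → Gd G → GraX K₀ e s J G →
    (∃ i ≤ M, ∃ B : G.Ω → Prop, Real.exp (-(3 * ψ i * J)) ≤ Pe G.p B ∧
      FBadX N s d e i J G B) ∨
    (c - ρ) * Real.log 2 * J ≤ CH G.p (fun ω => y₁ J (G.X J ω))
      (fun ω => (y₂ J (G.X J ω), G.W ω)) := by
  have hl2 : 0 < Real.log 2 := Real.log_pos one_lt_two
  obtain ⟨b', hb'⟩ : ∃ b', b' = (c - ρ / 2) * Real.log 2 := ⟨_, rfl⟩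
  obtain ⟨b, hb⟩ : ∃ b, b = b' - ρ / 4 * Real.log 2 := ⟨_, rfl⟩
  have hρl : 0 < ρ / 4 * Real.log 2 := by positivity
  by_cases hb0 : 0 ≤ b
  swap
  · push Not at hb0
    refine ⟨1, one_pos, 0, 0, fun J _ G _ _ _ => Or.inr ?_⟩
    have h1 : (c - ρ) * Real.log 2 ≤ 0 := by
      have e1 : (c - ρ) * Real.log 2 = b - ρ / 4 * Real.log 2 := by
        rw [hb, hb']
        ring
      rw [e1]
      linarith
    exact (mul_nonpos_of_nonpos_of_nonneg h1 (Nat.cast_nonneg J)).trans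
      (CH_nonneg G.isLaw.nonneg _ _)
  have hb1 : 0 < b' := by linarith
  have hcard : ∀ (i : ℕ) (e : ℝ), 0 < e → ∃ J₀ : ℕ, ∀ J ≥ J₀,
      (Fintype.card ((Fin (i + 1) × Fin n) ⊕ (Fin (i + 1) × Fin n)) : ℝ) ≤ Real.exp (e * J) := by
    intro i e he
    obtain ⟨J₀, hJ₀⟩ := exists_nat_ge
      ((Fintype.card ((Fin (i + 1) × Fin n) ⊕ (Fin (i + 1) × Fin n)) : ℝ) / e)
    refine ⟨J₀, fun J hJ => ?_⟩
    have h1 : (Fintype.card ((Fin (i + 1) × Fin n) ⊕ (Fin (i + 1) × Fin n)) : ℝ) / e ≤ J :=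
      hJ₀.trans (by exact_mod_cast hJ)
    rw [div_le_iff₀ he] at h1
    have h2 := Real.add_one_le_exp (e * J)
    linarith
  obtain ⟨η, hη, N₀, J₁, hmain⟩ := zcl_low2 (n := n)
    (ι := fun i _ => (Fin (i + 1) × Fin n) ⊕ (Fin (i + 1) × Fin n))
    (R := fxL n N s d e) (fun J F => Gd F ∧ GraX K₀ e s J F) hcard
    (fxL_inv N s d e) (fxL_glu N s d e) (fxL_part N s d e)
    (fun J G hG => hG.1) (fun J G hG κ k v hl => ⟨hG.1, hG.2.res k v hl⟩)
    y₁ y₂ hb0 (by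
      intro S hS hbad
      have hne : ∀ i : ℕ, Bas S.toP (fun J F A => ¬ ∃ a, fxL n N s d e i J a F A) := by
        intro i
        obtain ⟨κ, hκ, hc⟩ := hbad i
        refine Bas.mono 0 hc fun J _ F A h1 => h1 A ?_
        have h2 : Real.exp (-(κ * J)) ≤ 1 := by
          rw [Real.exp_le_one_iff]
          have : 0 ≤ κ * (J : ℝ) := by positivity
          linarith
        calc _ ≤ 1 * Pe F.p A := mul_le_mul_of_nonneg_right h2 (Pe_nonneg F.isLaw A)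
          _ = Pe F.p A := one_mul _
      -- the class of the events with few positions
      obtain ⟨S', hS'⟩ : ∃ S' : PCl n, S' = cntCly y₁ y₂ S b' := ⟨_, rfl⟩
      have hsub : ∀ (τ : ℝ) (J : ℕ) (F : Fam n J) (A : F.Ω → Prop),
          S'.St τ J F A → S.toP.St τ J F A := by
        intro τ J F A hA
        rw [hS'] at hA
        exact hA.1
      have hno : ¬ S'.Ne := by
        intro hNe
        refine hF S' hNe ?_ ?_ ?_ ?_
        · intro τ J F A hA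
          have h1 : S.St τ F A := hsub τ J F A hA
          exact ⟨S.tr h1.1, S.tm h1.1, S.rb h1.1, h1.2, (hS τ J F h1.1).1.1, (hS τ J F h1.1).1.2,
            (hS τ J F h1.1).2⟩
        · intro l K hl
          refine Bas.sub hsub (Bas.mono 0 (hne (max l K)) fun J _ F A h1 h2 => h1 ?_)
          exact fxL_of_btr (le_max_left _ _) hl (le_max_right _ _) h2
        · intro k hk q q' h0 h1 h2 h hh
          obtain ⟨i, hi⟩ := exists_inv hh
          obtain ⟨cc, hc⟩ : ∃ cc, cc = Encodable.encode (q, q') := ⟨_, rfl⟩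
          have hii : 1 / (((max i cc : ℕ) : ℝ) + 1) ≤ h := by
            refine le_trans ?_ hi
            refine one_div_le_one_div_of_le (by positivity) ?_
            have : (i : ℝ) ≤ ((max i cc : ℕ) : ℝ) := by exact_mod_cast le_max_left _ _
            linarith
          refine Bas.sub hsub (Bas.mono 0 (hne (max i cc)) fun J _ F A h3 => ?_)
          by_contra hcon
          push Not at hcon
          exact h3 (fxL_of_act hii (by rw [← hc]; exact le_max_right _ _) hk h0 h1 h2 hcon)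
        · refine ⟨1, one_pos, 0, fun J _ F A hA => ?_⟩
          rw [hS'] at hA
          have hA0 : 0 < Pe F.p A := lt_of_lt_of_le (Real.exp_pos _) hA.1.2
          have h1 := ch_le_cntC F.isLaw (fun ω => y₁ J (F.X J ω))
            (fun ω => (y₂ J (F.X J ω), F.W ω))
            (Real.one_le_exp (mul_nonneg hb1.le (Nat.cast_nonneg J))) hA0 hA.2
          rw [Real.log_exp, hb'] at h1
          exact h1
      have hno' : Bas S.toP (fun J F A => ¬ CntC F.p (fun ω => y₁ J (F.X J ω))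
          (fun ω => (y₂ J (F.X J ω), F.W ω)) (Real.exp (b' * J)) A) := by
        unfold PCl.Ne at hno
        push Not at hno
        obtain ⟨τ, hτ, J₂, h1⟩ := hno
        refine ⟨τ, hτ, J₂, fun J hJ F A hA hc => h1 J hJ F A ?_⟩
        rw [hS']
        exact ⟨hA, hc⟩
      have h5 := ch_ge_of (S := S.toP) (fun τ J F A hA => lt_of_lt_of_le (Real.exp_pos _) hA.2)
        (b := b) (b' := b') (by linarith) hb1 (fun J F ω => y₁ J (F.X J ω))
        (fun J F ω => (y₂ J (F.X J ω), F.W ω)) hno'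
      exact clg_of_clp h5.clp)
    ψ hψ (ρ / 4 * Real.log 2) hρl
  refine ⟨η, hη, N₀, J₁, fun J hJ G hTm hGd hGra => ?_⟩
  rcases hmain J hJ G hTm ⟨hGd, hGra⟩ with ⟨i, hi, B, hP, a, ha⟩ | h1
  · exact Or.inl ⟨i, hi, B, hP, fBadX_of_fxL ha⟩
  · right
    refine le_trans (le_of_eq ?_) h1
    rw [hb, hb']
    ring

/-- The digits of the coordinate `i` up to `Q J`. -/
noncomputable def yA (i : Fin n) (Q : ℝ) (J : ℕ) (v : Fin n → ℤ) : ℤ := v i / 2 ^ (J - ⌊Q * J⌋₊)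

/-- The digits of the coordinate `i` up to `Q J`, and the other coordinates. -/
noncomputable def yB (i : Fin n) (Q : ℝ) (J : ℕ) (v : Fin n → ℤ) : ℤ × (Fin n → ℤ) :=
  (v i / 2 ^ (J - ⌊Q * J⌋₊), Function.update v i 0)

theorem floor_leJ {Q : ℝ} (hQ : Q ≤ 1) (J : ℕ) : ⌊Q * (J : ℝ)⌋₊ ≤ J := by
  have h1 : Q * (J : ℝ) ≤ J := by
    have := mul_le_mul_of_nonneg_right hQ (Nat.cast_nonneg (α := ℝ) J)
    linarith
  exact Nat.floor_le_of_le h1

/-- **The rates of the last coordinate, for a family with side information.** -/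
def FZQ (n : ℕ) (x : ℝ) : Prop :=
  ∀ ρ al : ℝ, 0 < ρ → 0 < al → ∀ g₀ : ℝ → ℝ, (∀ ε : ℝ, 0 < ε → 0 < g₀ ε) →
    ∀ (s : Fin n → ℝ) (d : ℕ → ℝ), NumX s d → ∃ e : ℝ, 0 < e ∧
    ∀ i : Fin n, (i : ℕ) + 1 = n → ∀ Q₁ Q₂ : ℝ, s i ≤ Q₁ → Q₁ ≤ Q₂ → Q₂ ≤ 1 →
    ∀ (K₀ : ℕ) (N : ℚ → ℚ → ℝ), ActM N al g₀ → ∀ ψ : ℕ → ℝ, (∀ i, 0 < ψ i) →
    ∃ η : ℝ, 0 < η ∧ ∃ M J₁ : ℕ, ∀ J ≥ J₁,
    ∀ G : Fam n J, G.Tm (η * J) → Gd G → GraX K₀ e s J G →
    (∃ l ≤ M, ∃ B : G.Ω → Prop, Real.exp (-(3 * ψ l * J)) ≤ Pe G.p B ∧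
      FBadX N s d e l J G B) ∨
    ((1 - x) * (Q₂ - Q₁) - ρ) * Real.log 2 * J ≤ CH G.p (fun ω => G.X ⌊Q₂ * J⌋₊ ω i)
      (fun ω => ((G.X ⌊Q₁ * J⌋₊ ω i, Function.update (G.X J ω) i 0), G.W ω))

/-- **The rates of the last coordinate for families with side information.** -/
theorem fzq_of {n : ℕ} {x : ℝ} (hF : FTQ n x) : FZQ n x := by
  intro ρ al hρ hal g₀ hg₀ s d hsd
  obtain ⟨e, he, h⟩ := hF (ρ / 2) al (half_pos hρ) hal g₀ hg₀ s d hsd
  refine ⟨e, he, fun i hi Q₁ Q₂ h1 h12 h2 K₀ N hN ψ hψ => ?_⟩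
  have hA : ∀ (J : ℕ) (G : Fam n J) (ω : G.Ω), yA i Q₂ J (G.X J ω) = G.X ⌊Q₂ * J⌋₊ ω i :=
    fun J G ω => X_div G (floor_leJ h2 J) i ω
  have hB : ∀ (J : ℕ) (G : Fam n J) (ω : G.Ω), yB i Q₁ J (G.X J ω) =
      (G.X ⌊Q₁ * J⌋₊ ω i, Function.update (G.X J ω) i 0) :=
    fun J G ω => Prod.ext (X_div G (floor_leJ (h12.trans h2) J) i ω) rfl
  obtain ⟨η, hη, M, J₁, hm⟩ := fzy_core (yA i Q₂) (yB i Q₁) (c := (1 - x) * (Q₂ - Q₁)) (e := e)
    (d := d) (N := N) (K₀ := K₀) hρ (s := s) (fun S hS a1 a2 a3 => by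
      have h3 := h K₀ N hN S hS a1 a2 a3 i hi Q₁ Q₂ h1 h12 h2
      intro h4
      refine h3 (Bas.mono 0 h4 fun J _ F A h5 => ?_)
      simp only [hA, hB] at h5
      exact h5) ψ hψ
  refine ⟨η, hη, M, J₁, fun J hJ G b1 b2 b3 => ?_⟩
  have h6 := hm J hJ G b1 b2 b3
  simp only [hA, hB] at h6
  exact h6

end Pool.FRX
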