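import Pool.Agent.H56.FRX.Fzq
import Pool.Agent.H45.EXA.Exa
import Pool.Agent.H72.REC.Ent

/-!
# The rates of the last coordinate at a window, given any closed function

`exq_core`: from the statement for families with side information to the classes, at any window
and given any function which is closed at the window (as `exa_core`).
-/

set_option autoImplicit false

namespace Pool.FRX

open Finset Real MvPolynomial
open Pool.Agent.H49.Ent Pool.Agent.H32.Dense Pool.STK Pool.KA Pool.KSAT Pool.K2S Pool.PB Pool.S6C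
open Pool.FLF (Fam.sub)
open Pool.GEN Pool.REX

variable {m n J : ℕ}

/-! ### Few values -/

section few

variable {Ω α α' β β' γ γ' : Type} [Fintype Ω] {q : Ω → ℝ}

theorem few1 (hq : IsLaw q) (f : Ω → ℤ) (W : Ω → γ)
    (h : ∀ ω ω', 0 < q ω → 0 < q ω' → W ω = W ω' → |f ω - f ω'| ≤ 49) : CH q f W ≤ k99 := by
  have h1 := CH_le_vec hq.nonneg hq.sum_one (fun ω (_ : Fin 1) => f ω) W (fun _ => 49)
    (fun ω ω' a b e _ => by exact_mod_cast h ω ω' a b e)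
  have h2 : CH q f W ≤ CH q (fun ω (_ : Fin 1) => f ω) W := by
    refine CH_mono_left hq.nonneg fun ω ω' _ _ e => ?_
    exact congrFun (Prod.ext_iff.1 e).1 0
  rw [Ex_const hq.sum_one, Nat.cast_one, one_mul] at h1
  exact h2.trans h1

theorem fewv (hq : IsLaw q) (f : Ω → Fin n → ℤ) (W : Ω → γ)
    (h : ∀ ω ω', 0 < q ω → 0 < q ω' → W ω = W ω' → ∀ j, |f ω j - f ω' j| ≤ 49) :
    CH q f W ≤ n * k99 := by
  have h1 := CH_le_vec hq.nonneg hq.sum_one f W (fun _ => 49)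
    (fun ω ω' a b e j => by exact_mod_cast h ω ω' a b e j)
  rw [Ex_const hq.sum_one] at h1
  exact h1

/-- Comparison of conditional entropies. -/
theorem few_tr (h0 : ∀ ω, 0 ≤ q ω) (A : Ω → α) (A' : Ω → α') (B : Ω → β) (B' : Ω → β')
    (W : Ω → γ) (W' : Ω → γ') {cA cB : ℝ} (hB : CH q B' (fun ω => (B ω, W ω)) ≤ cB)
    (hA : CH q A (fun ω => (A' ω, W ω)) ≤ cA) (hW : Det q W W') :
    CH q A (fun ω => (B ω, W ω)) ≤ CH q A' (fun ω => (B' ω, W' ω)) + (cA + cB) := by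
  have h1 := CH_le_add h0 A B' (fun ω => (B ω, W ω))
  have h2 := CH_le_add h0 A A' (fun ω => (B' ω, (B ω, W ω)))
  have h3 : CH q A (fun ω => (A' ω, (B' ω, (B ω, W ω)))) ≤ CH q A (fun ω => (A' ω, W ω)) := by
    refine CH_mono_cond h0 fun ω ω' _ _ e => ?_
    have e1 := Prod.ext_iff.1 e
    have e2 := Prod.ext_iff.1 e1.2
    exact Prod.ext e1.1 (Prod.ext_iff.1 e2.2).2
  have h4 : CH q A' (fun ω => (B' ω, (B ω, W ω))) ≤ CH q A' (fun ω => (B' ω, W' ω)) := by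
    refine CH_mono_cond h0 fun ω ω' a b e => ?_
    have e1 := Prod.ext_iff.1 e
    exact Prod.ext e1.1 (hW ω ω' a b (Prod.ext_iff.1 e1.2).2)
  linarith

end few

/-- Floors of near numbers. -/
theorem fl_near {a b : ℝ} {c : ℝ} (h : |a - b| ≤ c) (hc : c ≤ 48) : |⌊a⌋ - ⌊b⌋| ≤ 49 := by
  have a1 := Int.floor_le a
  have a2 := Int.lt_floor_add_one a
  have b1 := Int.floor_le b
  have b2 := Int.lt_floor_add_one b
  have key : |((⌊a⌋ - ⌊b⌋ : ℤ) : ℝ)| ≤ 49 := by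
    rw [abs_le] at h ⊢
    push_cast
    constructor <;> linarith [h.1, h.2]
  exact_mod_cast key

/-- The digits of one of the coordinates `ε`, and the other coordinates `ε`. -/
noncomputable def dB (F : Fam m J) (ε : Fin n → Fin m) (i : Fin n) (k : ℕ) (ω : F.Ω) :
    ℤ × (Fin n → ℤ) := (F.X k ω (ε i), fun j => if j = i then 0 else F.X J ω (ε j))

/-- The digits of the side from the digits of another family. -/
theorem few_dB {Ω γ : Type} [Fintype Ω] {q : Ω → ℝ} (hq : IsLaw q) (W : Ω → γ)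
    (f : Ω → ℤ) (g : Ω → Fin n → ℤ) (i : Fin n)
    (hf : ∀ ω ω', 0 < q ω → 0 < q ω' → W ω = W ω' → |f ω - f ω'| ≤ 49)
    (hg : ∀ ω ω', 0 < q ω → 0 < q ω' → W ω = W ω' → ∀ j, j ≠ i → |g ω j - g ω' j| ≤ 49) :
    CH q (fun ω => (f ω, fun j => if j = i then 0 else g ω j)) W ≤ (n + 1) * k99 := by
  have h1 := CH_le_add hq.nonneg (fun ω => (f ω, fun j => if j = i then 0 else g ω j)) f W
  have h2 := few1 hq f W hf
  have h3 := fewv hq (fun ω j => if j = i then 0 else g ω j) W (by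
    intro ω ω' a b e j
    by_cases hj : j = i
    · simp [hj]
    · simp only [if_neg hj]
      exact hg ω ω' a b e j hj)
  have h4 : CH q (fun ω => (f ω, fun j => if j = i then 0 else g ω j)) (fun ω => (f ω, W ω)) ≤
      CH q (fun ω j => if j = i then 0 else g ω j) W := by
    have h5 : CH q (fun ω => (f ω, fun j => if j = i then 0 else g ω j)) (fun ω => (f ω, W ω)) ≤
        CH q (fun ω j => if j = i then 0 else g ω j) (fun ω => (f ω, W ω)) := by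
      refine CH_mono_left hq.nonneg fun ω ω' _ _ e => ?_
      have e1 := Prod.ext_iff.1 e
      exact Prod.ext (Prod.ext_iff.1 e1.2).1 e1.1
    exact h5.trans (CH_mono_cond hq.nonneg fun ω ω' _ _ e => (Prod.ext_iff.1 e).2)
  linarith

/-- **The rates in a full zoom** are at most the rates in the family, given any function of the
side information `g`. -/
theorem exq_row (F : Fam m J) {w J' : ℕ} (h : w + J' = J) {κ : Type} (g : F.Ω → κ)
    (e : Fin n → Fin m) {q : F.Ω → ℝ} (hq : IsLaw q) {V : Type} (y : F.Ω → V)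
    (hy : ∀ ω ω', 0 < q ω → 0 < q ω' → g ω = g ω' → y ω = y ω') (i : Fin n) {k₁ k₂ k₁' k₂' : ℕ}
    (h1 : k₁ ≤ J') (h2 : k₂ ≤ J') (h1' : k₁' ≤ w + k₁ + 2) (h2' : w + k₂ ≤ k₂' + 2) :
    CH q (fun ω => (zf F w J' h.le g e).X k₂ ω i)
      (fun ω => (((zf F w J' h.le g e).X k₁ ω i,
        Function.update ((zf F w J' h.le g e).X J' ω) i 0), (zf F w J' h.le g e).W ω)) ≤
      CH q (fun ω => F.X k₂' ω (e i)) (fun ω => (dB F e i k₁' ω, (y ω, F.W ω))) +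
        (n + 2) * k99 := by
  have h0 := hq.nonneg
  have pw : (0 : ℝ) < 2 ^ w := by positivity
  have pJ : (0 : ℝ) < 2 ^ J' := by positivity
  -- the difference of two samples
  have dif : ∀ ω ω', (zf F w J' h.le g e).W ω = (zf F w J' h.le g e).W ω' → ∀ j : Fin n,
      |((zf F w J' h.le g e).x ω j - (zf F w J' h.le g e).x ω' j) -
        2 ^ w * (F.x ω (e j) - F.x ω' (e j))| ≤ 6 / 2 ^ J' := by
    intro ω ω' hh j
    obtain ⟨hT, hl⟩ := zf_W_det F h g e hh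
    obtain ⟨b6, b7, b3, b4, b5⟩ := lb_iff.1 hl
    have c1 := zf_x F h.le g e ω j
    have c2 := zf_x F h.le g e ω' j
    have c3 : tb F w ω = tb F w ω' := by
      unfold tb Fam.t
      rw [hT, b6]
    rw [b3, b4, c3] at c1
    have e1 : (6 : ℝ) / 2 ^ J' = 3 / 2 ^ J' + 3 / 2 ^ J' := by ring
    rw [e1]
    rw [abs_le] at c1 c2 ⊢
    constructor <;> linarith [c1.1, c1.2, c2.1, c2.2]
  -- digits of the family from digits of the zoom
  have toF : ∀ ω ω', (zf F w J' h.le g e).W ω = (zf F w J' h.le g e).W ω' → ∀ (j : Fin n)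
      (k k' : ℕ), k ≤ J' → k' ≤ w + k + 2 →
      (zf F w J' h.le g e).X k ω j = (zf F w J' h.le g e).X k ω' j →
      |F.X k' ω (e j) - F.X k' ω' (e j)| ≤ 49 := by
    intro ω ω' hh j k k' hk hk' hX
    have d1 := dif ω ω' hh j
    have d2 := Plk.abs_sub_lt_of_floor (hX :
      ⌊(2 : ℝ) ^ k * (zf F w J' h.le g e).x ω j⌋ = ⌊(2 : ℝ) ^ k * (zf F w J' h.le g e).x ω' j⌋)
    have pk : (0 : ℝ) < 2 ^ k := by positivity
    obtain ⟨D, hD⟩ : ∃ D, D = (zf F w J' h.le g e).x ω j - (zf F w J' h.le g e).x ω' j := ⟨_, rfl⟩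
    obtain ⟨E, hE⟩ : ∃ E, E = F.x ω (e j) - F.x ω' (e j) := ⟨_, rfl⟩
    rw [← hD, ← hE] at d1
    have d3 : 2 ^ k * |D| ≤ 1 := by
      rw [← abs_of_pos pk, ← abs_mul, hD, mul_sub]
      exact d2
    have d4 : 2 ^ k * (6 / 2 ^ J') ≤ (6 : ℝ) := by
      rw [mul_div_assoc', div_le_iff₀ pJ, mul_comm]
      exact mul_le_mul_of_nonneg_left (pow_le_pow_right₀ one_le_two hk) (by norm_num)
    have d5 : 2 ^ k * |2 ^ w * E| ≤ 7 := by
      have d6 : |2 ^ w * E| ≤ |D| + 6 / 2 ^ J' := by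
        have := abs_sub_abs_le_abs_sub (2 ^ w * E) D
        rw [abs_sub_comm] at this
        linarith
      have := mul_le_mul_of_nonneg_left d6 pk.le
      rw [mul_add] at this
      linarith
    have d7 : |2 ^ k' * F.x ω (e j) - 2 ^ k' * F.x ω' (e j)| ≤ 28 := by
      rw [← mul_sub, ← hE, abs_mul, abs_of_pos (by positivity : (0 : ℝ) < 2 ^ k')]
      have d8 : (2 : ℝ) ^ k' ≤ 2 ^ w * 2 ^ k * 4 := by
        have : (2 : ℝ) ^ w * 2 ^ k * 4 = 2 ^ (w + k + 2) := by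
          rw [pow_add, pow_add]
          norm_num
        rw [this]
        exact pow_le_pow_right₀ one_le_two hk'
      have d9 : 2 ^ k * |2 ^ w * E| = 2 ^ w * 2 ^ k * |E| := by
        rw [abs_mul, abs_of_pos pw]
        ring
      calc _ ≤ 2 ^ w * 2 ^ k * 4 * |E| := mul_le_mul_of_nonneg_right d8 (abs_nonneg _)
        _ = 4 * (2 ^ w * 2 ^ k * |E|) := by ring
        _ ≤ 28 := by
          rw [← d9]
          linarith
    exact fl_near d7 (by norm_num)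
  -- digits of the zoom from digits of the family
  have ofF : ∀ ω ω', (zf F w J' h.le g e).W ω = (zf F w J' h.le g e).W ω' → ∀ (j : Fin n)
      (k k' : ℕ), k ≤ J' → w + k ≤ k' + 2 → F.X k' ω (e j) = F.X k' ω' (e j) →
      |(zf F w J' h.le g e).X k ω j - (zf F w J' h.le g e).X k ω' j| ≤ 49 := by
    intro ω ω' hh j k k' hk hk' hX
    have d1 := dif ω ω' hh j
    have d2 := Plk.abs_sub_lt_of_floor (hX :
      ⌊(2 : ℝ) ^ k' * F.x ω (e j)⌋ = ⌊(2 : ℝ) ^ k' * F.x ω' (e j)⌋)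
    have pk : (0 : ℝ) < 2 ^ k := by positivity
    have pk' : (0 : ℝ) < 2 ^ k' := by positivity
    obtain ⟨D, hD⟩ : ∃ D, D = (zf F w J' h.le g e).x ω j - (zf F w J' h.le g e).x ω' j := ⟨_, rfl⟩
    obtain ⟨E, hE⟩ : ∃ E, E = F.x ω (e j) - F.x ω' (e j) := ⟨_, rfl⟩
    rw [← hD, ← hE] at d1
    have d3 : 2 ^ k' * |E| ≤ 1 := by
      rw [← abs_of_pos pk', ← abs_mul, hE, mul_sub]
      exact d2
    have d4 : 2 ^ k * (6 / 2 ^ J') ≤ (6 : ℝ) := by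
      rw [mul_div_assoc', div_le_iff₀ pJ, mul_comm]
      exact mul_le_mul_of_nonneg_left (pow_le_pow_right₀ one_le_two hk) (by norm_num)
    have d5 : 2 ^ k * |2 ^ w * E| ≤ 4 := by
      have d8 : (2 : ℝ) ^ w * 2 ^ k ≤ 2 ^ k' * 4 := by
        have e1 : (2 : ℝ) ^ w * 2 ^ k = 2 ^ (w + k) := by rw [pow_add]
        have e2 : (2 : ℝ) ^ k' * 4 = 2 ^ (k' + 2) := by
          rw [pow_add]
          norm_num
        rw [e1, e2]
        exact pow_le_pow_right₀ one_le_two hk'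
      have d9 : 2 ^ k * |2 ^ w * E| = 2 ^ w * 2 ^ k * |E| := by
        rw [abs_mul, abs_of_pos pw]
        ring
      rw [d9]
      calc _ ≤ 2 ^ k' * 4 * |E| := mul_le_mul_of_nonneg_right d8 (abs_nonneg _)
        _ = 4 * (2 ^ k' * |E|) := by ring
        _ ≤ 4 := by linarith
    have d7 : |2 ^ k * (zf F w J' h.le g e).x ω j - 2 ^ k * (zf F w J' h.le g e).x ω' j| ≤ 10 := by
      rw [← mul_sub, ← hD, abs_mul, abs_of_pos pk]
      have d6 : |D| ≤ |2 ^ w * E| + 6 / 2 ^ J' := by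
        have := abs_sub_abs_le_abs_sub D (2 ^ w * E)
        linarith
      have := mul_le_mul_of_nonneg_left d6 pk.le
      rw [mul_add] at this
      linarith
    exact fl_near d7 (by norm_num)
  have r1 := few_tr h0 (fun ω => (zf F w J' h.le g e).X k₂ ω i) (fun ω => F.X k₂' ω (e i))
    (fun ω => ((zf F w J' h.le g e).X k₁ ω i, Function.update ((zf F w J' h.le g e).X J' ω) i 0))
    (dB F e i k₁') (zf F w J' h.le g e).W (fun ω => (y ω, F.W ω)) (cA := k99)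
    (cB := (n + 1) * k99) (by
      refine few_dB hq _ _ _ i ?_ ?_
      · intro ω ω' _ _ hh
        have b1 := Prod.ext_iff.1 hh
        exact toF ω ω' b1.2 i k₁ k₁' h1 h1' (Prod.ext_iff.1 b1.1).1
      · intro ω ω' _ _ hh j hj
        have b1 := Prod.ext_iff.1 hh
        have b2 := congrFun (Prod.ext_iff.1 b1.1).2 j
        simp only [Function.update_apply, if_neg hj] at b2
        exact toF ω ω' b1.2 j J' J le_rfl (by omega) b2)
    (by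
      refine few1 hq _ _ ?_
      intro ω ω' _ _ hh
      have b1 := Prod.ext_iff.1 hh
      exact ofF ω ω' b1.2 i k₂ k₂' h2 h2' b1.1)
    (by
      intro ω ω' a b hh
      obtain ⟨hT, hl⟩ := zf_W_det F h g e hh
      obtain ⟨b6, b7, b3, b4, b5⟩ := lb_iff.1 hl
      exact Prod.ext (hy ω ω' a b b7) (Prod.ext hT b5))
  linarith

/-- **The rates**, for the numbers of the zooms. -/
theorem exq_core {S : PCl m} {C₀ : ℝ} (hC₀ : 0 ≤ C₀) (hbs : TmC S C₀) {w₁ : ℝ} (hw0 : 0 < w₁)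
    (hw11 : w₁ < 1) {ε : Fin n → Fin m} {c ρ : ℝ} (hρ : 0 < ρ) (i₀ : Fin n) {Q₁ Q₂ : ℝ}
    (hQ1 : 0 ≤ Q₁) (hQ12 : Q₁ ≤ Q₂) (hQ2 : Q₂ ≤ 1)
    {Gr : ∀ J : ℕ, Fam n J → Prop} {Bad : ℕ → Stat n}
    (hF : ∀ ψ : ℕ → ℝ, (∀ i, 0 < ψ i) → ∃ η : ℝ, 0 < η ∧ ∃ M J₁ : ℕ, ∀ J ≥ J₁,
      ∀ G : Fam n J, G.Tm (η * J) → Gd G → Gr J G →
      (∃ i ≤ M, ∃ B : G.Ω → Prop, Real.exp (-(3 * ψ i * J)) ≤ Pe G.p B ∧ Bad i J G B) ∨
      c * Real.log 2 * J ≤ CH G.p (fun ω => G.X ⌊Q₂ * J⌋₊ ω i₀)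
        (fun ω => ((G.X ⌊Q₁ * J⌋₊ ω i₀, Function.update (G.X J ω) i₀ 0), G.W ω)))
    (hbad : ∀ i, ZBas S w₁ ε (fun J G B => ¬ Bad i J G B))
    (hgra : ∃ τ₀ : ℝ, 0 < τ₀ ∧ ∃ J₀ : ℕ, ∀ J ≥ J₀, ∀ (F : Fam m J) (A : F.Ω → Prop),
      S.St τ₀ J F A → ∃ (κ₀ : Type) (z₀ : PtT F → κ₀) (z₀' : LnT F → κ₀),
        (∀ ω, A ω → z₀ (ptr F J ω) = z₀' (slam F ⌊w₁ * J⌋₊ ω)) ∧
        ∀ (κ : Type) (g : F.Ω → κ) (φ : κ → κ₀),
          (∀ ω, A ω → z₀' (slam F ⌊w₁ * J⌋₊ ω) = φ (g ω)) →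
          ∀ (hl : IsLaw (Pool.Agent.H49.Ent.cond F.p A True)) (J' : ℕ)
          (hJ : ⌊w₁ * J⌋₊ + J' = J),
          Gr J' (zf (F.res A True hl) ⌊w₁ * J⌋₊ J' hJ.le g ε)) :
    Bas S (fun J F A => ∀ (V : Type) (z : PtT F → V) (z' : LnT F → V),
      (∀ ω, A ω → z (ptr F J ω) = z' (slam F ⌊w₁ * J⌋₊ ω)) →
      (c * (1 - w₁) - ρ) * Real.log 2 * J ≤ CH (Pool.Agent.H49.Ent.cond F.p A True)
        (fun ω => F.X ⌊(w₁ + (1 - w₁) * Q₂) * J⌋₊ ω (ε i₀))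
        (fun ω => (dB F ε i₀ ⌊(w₁ + (1 - w₁) * Q₁) * J⌋₊ ω,
          (z' (slam F ⌊w₁ * J⌋₊ ω), F.W ω)))) := by
  classical
  have h01 : 0 < 1 - w₁ := by linarith
  have hl2 : 0 < Real.log 2 := Real.log_pos one_lt_two
  choose ψ hψ τ₁ hτ₁ J₁ hz using hbad
  obtain ⟨η, hη, M, J₂, hmain⟩ := hF ψ hψ
  obtain ⟨τ₂, hτ₂, J₃, hg⟩ := hgra
  obtain ⟨τm, hτm, hτm'⟩ := fmin45 M τ₁ hτ₁
  obtain ⟨τ, hτ⟩ : ∃ τ, τ = min (min τm τ₂) (η * (1 - w₁) / (C₀ + 1)) := ⟨_, rfl⟩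
  have hτ0 : 0 < τ := by
    rw [hτ]
    exact lt_min (lt_min hτm hτ₂) (div_pos (mul_pos hη h01) (by linarith))
  have t1 : τ ≤ τm := by rw [hτ]; exact (min_le_left _ _).trans (min_le_left _ _)
  have t2 : τ ≤ τ₂ := by rw [hτ]; exact (min_le_left _ _).trans (min_le_right _ _)
  have t3 : C₀ * τ ≤ η * (1 - w₁) := by
    have h1 : τ ≤ η * (1 - w₁) / (C₀ + 1) := by rw [hτ]; exact min_le_right _ _
    rw [le_div_iff₀ (by linarith)] at h1
    have e1 : τ * (C₀ + 1) = C₀ * τ + τ := by ring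
    linarith
  obtain ⟨J₄, hJ₄⟩ := lin (J₂ : ℝ) h01
  obtain ⟨J₅, hJ₅⟩ := lin (((n : ℝ) + 2) * k99) (mul_pos hρ hl2)
  refine ⟨τ, hτ0, max (max (∑ i ∈ range (M + 1), J₁ i) J₃) (max J₄ J₅), ?_⟩
  intro J hJ F A hS V z z' hcls
  have hJ1 : ∑ i ∈ range (M + 1), J₁ i ≤ J :=
    (le_max_left _ _).trans ((le_max_left _ _).trans hJ)
  have hJ3 : J₃ ≤ J := (le_max_right _ _).trans ((le_max_left _ _).trans hJ)
  have hJ4 := hJ₄ J ((le_max_left _ _).trans ((le_max_right _ _).trans hJ))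
  have hJ5 := hJ₅ J ((le_max_right _ _).trans ((le_max_right _ _).trans hJ))
  have hJr : (0 : ℝ) ≤ J := Nat.cast_nonneg J
  obtain ⟨hA, hTmA⟩ := hbs _ J F A hτ0 hS
  have hl := isLaw_cond F.isLaw hA
  obtain ⟨κ₀, z₀, z₀', hz₀, hgr⟩ := hg J hJ3 F A (S.mono t2 hS)
  -- the scale
  have hWJ : ⌊w₁ * (J : ℝ)⌋₊ ≤ J := by
    refine Nat.floor_le_of_le ?_
    have := mul_le_mul_of_nonneg_right hw11.le hJr
    linarith
  obtain ⟨J', hJ'⟩ : ∃ J', ⌊w₁ * (J : ℝ)⌋₊ + J' = J := ⟨J - ⌊w₁ * (J : ℝ)⌋₊, by omega⟩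
  have hWr : (⌊w₁ * (J : ℝ)⌋₊ : ℝ) ≤ w₁ * J := Nat.floor_le (by positivity)
  have hsum : (⌊w₁ * (J : ℝ)⌋₊ : ℝ) + J' = J := by exact_mod_cast hJ'
  have hJ'0 : (0 : ℝ) ≤ J' := Nat.cast_nonneg J'
  have hJ'1 : (1 - w₁) * J ≤ (J' : ℝ) := by
    have : (1 - w₁) * (J : ℝ) = J - w₁ * J := by ring
    linarith
  have hJ'2 : J₂ ≤ J' := by
    have : (J₂ : ℝ) ≤ J' := by linarith
    exact_mod_cast this
  -- the side information
  obtain ⟨g, hg'⟩ : ∃ g : F.Ω → V × κ₀, g = fun ω =>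
      (fun s : LnT F => (z' s, z₀' s)) (slam F ⌊w₁ * (J : ℝ)⌋₊ ω) := ⟨_, rfl⟩
  have hcls' : ∀ ω, A ω → (fun x : PtT F => (z x, z₀ x)) (ptr F J ω) =
      (fun s : LnT F => (z' s, z₀' s)) (slam F ⌊w₁ * (J : ℝ)⌋₊ ω) := by
    intro ω hω
    exact Prod.ext (hcls ω hω) (hz₀ ω hω)
  have hGr := hgr (V × κ₀) g (fun v => v.2) (fun ω _ => by rw [hg']) hl J' hJ'
  have hTm : (zf (F.res A True hl) ⌊w₁ * (J : ℝ)⌋₊ J' hJ'.le g ε).Tm (η * J') := by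
    have h1 := zf_Tm (F.res A True hl) hJ'.le g ε (by
      intro ω ω' _ _ hh
      have a1 := Prod.ext_iff.1 hh
      have a2 := Prod.ext_iff.1 a1.2
      simp only at a1 a2
      have a3 : slam F ⌊w₁ * (J : ℝ)⌋₊ ω = slam F ⌊w₁ * (J : ℝ)⌋₊ ω' :=
        Prod.ext a1.1 (Prod.ext a2.2 a2.1)
      rw [hg']
      simp only
      rw [a3]) (hTmA hl)
    unfold Fam.Tm at h1 ⊢
    refine le_trans ?_ h1
    have h2 : C₀ * τ * J ≤ η * J' := by
      calc C₀ * τ * J ≤ η * (1 - w₁) * J := mul_le_mul_of_nonneg_right t3 hJr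
        _ = η * ((1 - w₁) * J) := by ring
        _ ≤ η * J' := mul_le_mul_of_nonneg_left hJ'1 hη.le
    linarith
  rcases hmain J' hJ'2 _ hTm (zf_Gd _ hJ'.le g ε) hGr with ⟨i, hi, B, hB, hb⟩ | h1
  · exfalso
    have hJi : J₁ i ≤ J := (Finset.single_le_sum (f := J₁) (fun _ _ => Nat.zero_le _)
      (Finset.mem_range.2 (by omega))).trans hJ1
    rw [hg'] at hb hB
    exact hz i J hJi F A (S.mono (t1.trans (hτm' i hi)) hS) (V × κ₀) (fun x => (z x, z₀ x))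
      (fun s => (z' s, z₀' s)) hcls' hl J' hJ' B hB hb
  · -- the numbers of digits
    have hJ'3 : (J' : ℝ) ≤ (1 - w₁) * J + 1 := by
      have h5 := Nat.lt_floor_add_one (w₁ * (J : ℝ))
      have : (1 - w₁) * (J : ℝ) = J - w₁ * J := by ring
      linarith
    have hk1 : ⌊(w₁ + (1 - w₁) * Q₁) * (J : ℝ)⌋₊ ≤ ⌊w₁ * (J : ℝ)⌋₊ + ⌊Q₁ * (J' : ℝ)⌋₊ + 2 := by
      have h5 : (w₁ + (1 - w₁) * Q₁) * (J : ℝ) ≤
          (⌊w₁ * (J : ℝ)⌋₊ : ℝ) + ⌊Q₁ * (J' : ℝ)⌋₊ + 2 := by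
        have h6 := Nat.lt_floor_add_one (w₁ * (J : ℝ))
        have h7 := Nat.lt_floor_add_one (Q₁ * (J' : ℝ))
        have h8 : 0 ≤ Q₁ * ((⌊w₁ * (J : ℝ)⌋₊ : ℝ) + J' - J) := by rw [hsum]; simp
        have h9 : (1 - Q₁) * (w₁ * (J : ℝ)) ≤ (1 - Q₁) * (⌊w₁ * (J : ℝ)⌋₊ + 1) :=
          mul_le_mul_of_nonneg_left h6.le (by linarith)
        nlinarith
      have h6 : ((⌊(w₁ + (1 - w₁) * Q₁) * (J : ℝ)⌋₊ : ℕ) : ℝ) ≤
          ((⌊w₁ * (J : ℝ)⌋₊ + ⌊Q₁ * (J' : ℝ)⌋₊ + 2 : ℕ) : ℝ) := by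
        push_cast
        refine (Nat.floor_le ?_).trans h5
        have : 0 ≤ w₁ + (1 - w₁) * Q₁ := by nlinarith [mul_nonneg h01.le hQ1]
        exact mul_nonneg this hJr
      exact_mod_cast h6
    have hk2 : ⌊w₁ * (J : ℝ)⌋₊ + ⌊Q₂ * (J' : ℝ)⌋₊ ≤ ⌊(w₁ + (1 - w₁) * Q₂) * (J : ℝ)⌋₊ + 2 := by
      have hQ20 : 0 ≤ Q₂ := hQ1.trans hQ12
      have h5 : ((⌊w₁ * (J : ℝ)⌋₊ + ⌊Q₂ * (J' : ℝ)⌋₊ : ℕ) : ℝ) ≤
          ((⌊(w₁ + (1 - w₁) * Q₂) * (J : ℝ)⌋₊ + 2 : ℕ) : ℝ) := by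
        push_cast
        have h6 := Nat.lt_floor_add_one ((w₁ + (1 - w₁) * Q₂) * (J : ℝ))
        have h7 : (⌊Q₂ * (J' : ℝ)⌋₊ : ℝ) ≤ Q₂ * J' := Nat.floor_le (mul_nonneg hQ20 hJ'0)
        have h8 : Q₂ * (J' : ℝ) ≤ Q₂ * ((1 - w₁) * J + 1) := mul_le_mul_of_nonneg_left hJ'3 hQ20
        nlinarith
      exact_mod_cast h5
    have h2 := exq_row (F.res A True hl) hJ' g ε (q := Pool.Agent.H49.Ent.cond F.p A True) hl
      (fun ω => z' (slam F ⌊w₁ * (J : ℝ)⌋₊ ω)) (by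
        intro ω ω' _ _ hh
        rw [hg'] at hh
        exact (Prod.ext_iff.1 hh).1) i₀ (floor_leJ (hQ12.trans hQ2) J') (floor_leJ hQ2 J') hk1 hk2
    have h3 : c * Real.log 2 * J' ≤ CH (Pool.Agent.H49.Ent.cond F.p A True)
        (fun ω => F.X ⌊(w₁ + (1 - w₁) * Q₂) * J⌋₊ ω (ε i₀))
        (fun ω => (dB F ε i₀ ⌊(w₁ + (1 - w₁) * Q₁) * J⌋₊ ω,
          (z' (slam F ⌊w₁ * (J : ℝ)⌋₊ ω), F.W ω))) + (n + 2) * k99 := h1.trans h2
    by_cases hc : 0 ≤ c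
    · have h4 : c * (1 - w₁) * Real.log 2 * J ≤ c * Real.log 2 * J' := by
        have h5 := mul_le_mul_of_nonneg_left hJ'1 (mul_nonneg hc hl2.le)
        have e1 : c * Real.log 2 * ((1 - w₁) * (J : ℝ)) = c * (1 - w₁) * Real.log 2 * J := by ring
        linarith
      have e2 : (c * (1 - w₁) - ρ) * Real.log 2 * (J : ℝ) =
          c * (1 - w₁) * Real.log 2 * J - ρ * Real.log 2 * J := by ring
      rw [e2]
      linarith
    · push Not at hc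
      refine le_trans ?_ (CH_nonneg hl.nonneg _ _)
      refine mul_nonpos_of_nonpos_of_nonneg (mul_nonpos_of_nonpos_of_nonneg ?_ hl2.le) hJr
      have := mul_nonneg (by linarith : 0 ≤ -c) h01.le
      linarith

end Pool.FRX
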