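import Pool.Agent.H56.FRX.Rexq
import Pool.Agent.H83.REC.Exq

/-!
# The rates of the last coordinate, for the zooms of `rexv_all`

`RDt.rate`: the zooms with the data `RDt` (the tube `p`, the active coordinate, the numbers `L` of
the closed labels) have the rates of the last coordinate of every greedy order.
-/

set_option autoImplicit false

namespace Pool.FRX

open Finset Real
open Pool.Agent.H49.Ent Pool.Agent.H32.Dense Pool.STK Pool.KA Pool.KSAT Pool.K2S Pool.PB Pool.S6C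
open Pool.GEN Pool.REX Pool.REX83

variable {m n J : ℕ}

/-- **The rates of the last coordinate**, for the zooms of `rexv_all`. -/
theorem RDt.rate {S : PCl m} {v : Vz m} {ε : Fin n → Fin m} {p : ℝ} {κ : Fin n}
    {L : Finset (Fin n) → Fin n → ℝ → ℝ → ℝ} (h : RDt S v ε p κ L) (hne : S.Ne) {C₀ : ℝ}
    (hC₀ : 0 ≤ C₀) (htm : TmC S C₀) {x : ℝ} (hF : FZQ n x) {w : ℝ} {σ : Fin n → Fin n}
    (hσ : Function.Injective σ) (hw : w ∈ Wv L σ) (hσ0 : ∀ j : Fin n, (j : ℕ) = 0 → σ j = κ)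
    {i : Fin n} (hi : (i : ℕ) + 1 = n) {Q₁ Q₂ : ℝ} (hQ1 : vs L σ w n ≤ Q₁) (hQ12 : Q₁ ≤ Q₂)
    (hQ2 : Q₂ ≤ 1) {ρ : ℝ} (hρ : 0 < ρ) : Bas S (fun J F A =>
      ((1 - x) * ((v.b + (1 - v.b) * (p + (1 - p) * Q₂)) -
        (v.b + (1 - v.b) * (p + (1 - p) * Q₁))) - ρ) * Real.log 2 * J ≤
        CH (Pool.Agent.H49.Ent.cond F.p A True)
          (fun ω => F.X ⌊(v.b + (1 - v.b) * (p + (1 - p) * Q₂)) * J⌋₊ ω (ε (σ i)))
          (fun ω => (dB F (fun j => ε (σ j)) i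
            ⌊(v.b + (1 - v.b) * (p + (1 - p) * Q₁)) * J⌋₊ ω, (v.y J F ω, F.W ω)))) := by
  obtain ⟨p0, p1, hL, ⟨Na, al, g₀, hal, hg₀, hM, hB⟩, -⟩ := h
  have h1 := rexq n hF hC₀ htm (atp v p p0.le (p1.trans (by norm_num))) ε (recV_ne hne _ _)
    (fun _ _ _ _ h => h) hL hal hg₀ hM hσ (fun j hj => by rw [hσ0 j hj]; exact hB) hw hi hQ1
    hQ12 hQ2 hρ
  -- all families are in the pull-back
  obtain ⟨τ, hτ, J₁, hb⟩ := h1
  refine ⟨τ, hτ, J₁, fun J hJ F A hA => hb J hJ F A ⟨hA, fun h => ?_⟩⟩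
  have hb0 := v.b0
  have hb1 := v.b1
  refine (RecV S (atp v p p0.le (p1.trans (by norm_num))) ε).mono ?_ (recV_mk hA h)
  have hc : 0 < (1 - v.b) * (1 - p) := mul_pos (by linarith) (by linarith)
  have h1c : 1 ≤ 1 / ((1 - v.b) * (1 - p)) := by
    rw [le_div_iff₀ hc, one_mul]
    exact mul_le_one₀ (by linarith) (by linarith) (by linarith)
  calc τ = 1 * τ := (one_mul τ).symm
    _ ≤ 1 / ((1 - v.b) * (1 - p)) * τ := mul_le_mul_of_nonneg_right h1c hτ.le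

end Pool.FRX
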