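import Pool.Agent.H56.FRX.Vsq
import Pool.Agent.H72.REC.ExaV
import Pool.Agent.H45.EXA.Vgr

/-!
# The rates of the last coordinate behind records

`rexq`: the form of `rexv` for the rates: for the zooms of some coordinates into windows and tubes,
with any visible variable, the digits `v.sc Q₁, …, v.sc Q₂` of the last coordinate of a greedy
order, behind the number of its closed labels, given the digits before, the other coordinates, the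
visible variable, the time and the side information, have at least the rate `1 - x`.
-/

set_option autoImplicit false

namespace Pool.FRX

open Finset Real
open Pool.Agent.H49.Ent Pool.Agent.H32.Dense Pool.STK Pool.KA Pool.KSAT Pool.K2S Pool.PB Pool.S6C
open Pool.GEN Pool.REX

variable {m n J : ℕ}

/-- **The rates in the zoom of some coordinates.** -/
theorem transferQ (F : Fam m J) {B P : ℕ} (hP : P ≤ J - B) {κ : Type} (y : F.Ω → κ) (hB : B ≤ J)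
    (hy : ∀ ω ω' : F.Ω, slam F B ω = slam F B ω' → y ω = y ω') {q : F.Ω → ℝ} {e : ℝ}
    (hq : IsLaw q) (hT : TmQ F q e) (hPJ : P ≤ J) (ε : Fin n → Fin m) (σ : Fin n → Fin n)
    (i : Fin n) {k₁ k₂ k₁' k₂' : ℕ} (h1 : k₁ ≤ J - B - P) (h2 : k₂ ≤ J - B - P) (h1J : k₁' ≤ J)
    (h2J : k₂' ≤ J) (h1' : k₁' ≤ B + P + k₁ + 2) (h2' : B + P + k₂ ≤ k₂' + 2) :
    CH q (fun ω => (zmV F hP y ε).X k₂ ω (σ i))
      (fun ω => (dB (zmV F hP y ε) σ i k₁ ω, (((), (zmV F hP y ε).W ω) : Unit × _))) ≤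
    CH q (fun ω => F.X k₂' ω (ε (σ i)))
      (fun ω => (dB F (fun j => ε (σ j)) i k₁' ω, (y ω, F.W ω))) + (n + 2) * k99 + e := by
  have h0 := hq.nonneg
  obtain ⟨R, hR⟩ : ∃ R, R = J - B - P := ⟨_, rfl⟩
  have hJ : B + P + R = J := by omega
  have hXk : ∀ (k : ℕ) (hk : k ≤ J - B - P) (ω ω' : F.Ω), (zmV F hP y ε).X (J - B - P) ω =
      (zmV F hP y ε).X (J - B - P) ω' → ∀ j, (zmV F hP y ε).X k ω j = (zmV F hP y ε).X k ω' j := by
    intro k hk ω ω' h j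
    rw [← X_div (zmV F hP y ε) hk j ω, ← X_div (zmV F hP y ε) hk j ω', h]
  -- the digits of the time
  have s1 := indep F hq (P := P) hPJ hT (fun ω => (zmV F hP y ε).X k₂ ω (σ i))
    (fun ω => (dB (zmV F hP y ε) σ i k₁ ω, (((), (zmV F hP y ε).W ω) : Unit × _)))
    (fun ω ω' _ _ h => hXk k₂ h2 ω ω' (wV_det F hP y hB hy ε h).1 (σ i))
    (fun ω ω' _ _ h => by
      obtain ⟨a1, a2⟩ := wV_det F hP y hB hy ε h
      refine Prod.ext (Prod.ext (hXk k₁ h1 ω ω' a1 (σ i)) ?_) (Prod.ext rfl a2)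
      funext j
      show (if j = i then 0 else (zmV F hP y ε).X (J - B - P) ω (σ j)) =
        if j = i then 0 else (zmV F hP y ε).X (J - B - P) ω' (σ j)
      rw [a1])
  -- two samples
  have dif : ∀ ω ω' : F.Ω, F.T ω % 2 ^ P = F.T ω' % 2 ^ P →
      (zmV F hP y ε).W ω = (zmV F hP y ε).W ω' → ∀ j : Fin n,
      |((2 : ℝ) ^ R * (zmV F hP y ε).x ω j - 2 ^ R * (zmV F hP y ε).x ω' j) -
        (2 ^ J * F.x ω (ε j) - 2 ^ J * F.x ω' (ε j))| ≤ 2 := by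
    intro ω ω' hT hW j
    obtain ⟨b1, b2, b3, b4, b5, b6⟩ := of_zmV F hP y ε hT hW
    rw [hR]
    exact zm_diffk F hP y hB b1 (b4 j) (b5 j) (congrFun b6 (ε j))
  have toF : ∀ ω ω' : F.Ω, F.T ω % 2 ^ P = F.T ω' % 2 ^ P →
      (zmV F hP y ε).W ω = (zmV F hP y ε).W ω' → ∀ (j : Fin n) (k k' : ℕ), k ≤ R → k' ≤ J →
      k' ≤ B + P + k + 2 → (zmV F hP y ε).X k ω j = (zmV F hP y ε).X k ω' j →
      |F.X k' ω (ε j) - F.X k' ω' (ε j)| ≤ 49 := by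
    intro ω ω' hT hW j k k' hk hk'J hk' hX
    have d1 := dif ω ω' hT hW j
    have d2 := Plk.abs_sub_lt_of_floor (hX :
      ⌊(2 : ℝ) ^ k * (zmV F hP y ε).x ω j⌋ = ⌊(2 : ℝ) ^ k * (zmV F hP y ε).x ω' j⌋)
    obtain ⟨D, hD⟩ : ∃ D, D = (zmV F hP y ε).x ω j - (zmV F hP y ε).x ω' j := ⟨_, rfl⟩
    obtain ⟨E, hE⟩ : ∃ E, E = F.x ω (ε j) - F.x ω' (ε j) := ⟨_, rfl⟩
    rw [← mul_sub, ← mul_sub, ← hD, ← hE] at d1
    have pk : (0 : ℝ) < 2 ^ k := by positivity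
    have pk' : (0 : ℝ) < 2 ^ k' := by positivity
    have d3 : 2 ^ k * |D| ≤ 1 := by
      rw [← abs_of_pos pk, ← abs_mul, hD, mul_sub]
      exact d2
    obtain ⟨u, hu⟩ := Nat.exists_eq_add_of_le hk
    obtain ⟨u', hu'⟩ := Nat.exists_eq_add_of_le hk'J
    have e1 : (2 : ℝ) ^ R = 2 ^ u * 2 ^ k := by rw [hu, pow_add]; ring
    have e2 : (2 : ℝ) ^ J = 2 ^ u' * 2 ^ k' := by rw [hu', pow_add]; ring
    have d4 : 2 ^ u' * (2 ^ k' * |E|) ≤ 2 ^ u + 2 := by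
      have d5 : |2 ^ J * E| ≤ |2 ^ R * D| + 2 := by
        have := abs_sub_abs_le_abs_sub (2 ^ J * E) (2 ^ R * D)
        rw [abs_sub_comm] at this
        linarith
      rw [abs_mul, abs_mul, abs_of_pos (by positivity : (0 : ℝ) < 2 ^ J),
        abs_of_pos (by positivity : (0 : ℝ) < 2 ^ R), e1, e2] at d5
      have d6 : (2 : ℝ) ^ u * 2 ^ k * |D| ≤ 2 ^ u := by
        have := mul_le_mul_of_nonneg_left d3 (by positivity : (0 : ℝ) ≤ 2 ^ u)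
        calc _ = 2 ^ u * (2 ^ k * |D|) := by ring
          _ ≤ 2 ^ u * 1 := this
          _ = _ := by ring
      calc _ = 2 ^ u' * 2 ^ k' * |E| := by ring
        _ ≤ _ := d5
        _ ≤ _ := by linarith
    have d7 : (2 : ℝ) ^ u ≤ 4 * 2 ^ u' := by
      have e3 : (4 : ℝ) * 2 ^ u' = 2 ^ (u' + 2) := by
        rw [pow_add]
        ring
      rw [e3]
      exact pow_le_pow_right₀ one_le_two (by omega)
    have d8 : (1 : ℝ) ≤ 2 ^ u' := one_le_pow₀ one_le_two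
    have d9 : 2 ^ k' * |E| ≤ 6 := by
      have h3 : 2 ^ u' * (2 ^ k' * |E|) ≤ 2 ^ u' * 6 := by linarith
      exact le_of_mul_le_mul_left h3 (by positivity)
    refine fl_near (c := 6) ?_ (by norm_num)
    rw [← mul_sub, ← hE, abs_mul, abs_of_pos pk']
    exact d9
  have ofF : ∀ ω ω' : F.Ω, F.T ω % 2 ^ P = F.T ω' % 2 ^ P →
      (zmV F hP y ε).W ω = (zmV F hP y ε).W ω' → ∀ (j : Fin n) (k k' : ℕ), k ≤ R → k' ≤ J →
      B + P + k ≤ k' + 2 → F.X k' ω (ε j) = F.X k' ω' (ε j) →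
      |(zmV F hP y ε).X k ω j - (zmV F hP y ε).X k ω' j| ≤ 49 := by
    intro ω ω' hT hW j k k' hk hk'J hk' hX
    have d1 := dif ω ω' hT hW j
    have d2 := Plk.abs_sub_lt_of_floor (hX :
      ⌊(2 : ℝ) ^ k' * F.x ω (ε j)⌋ = ⌊(2 : ℝ) ^ k' * F.x ω' (ε j)⌋)
    obtain ⟨D, hD⟩ : ∃ D, D = (zmV F hP y ε).x ω j - (zmV F hP y ε).x ω' j := ⟨_, rfl⟩
    obtain ⟨E, hE⟩ : ∃ E, E = F.x ω (ε j) - F.x ω' (ε j) := ⟨_, rfl⟩
    rw [← mul_sub, ← mul_sub, ← hD, ← hE] at d1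
    have pk : (0 : ℝ) < 2 ^ k := by positivity
    have pk' : (0 : ℝ) < 2 ^ k' := by positivity
    have d3 : 2 ^ k' * |E| ≤ 1 := by
      rw [← abs_of_pos pk', ← abs_mul, hE, mul_sub]
      exact d2
    obtain ⟨u, hu⟩ := Nat.exists_eq_add_of_le hk
    obtain ⟨u', hu'⟩ := Nat.exists_eq_add_of_le hk'J
    have e1 : (2 : ℝ) ^ R = 2 ^ u * 2 ^ k := by rw [hu, pow_add]; ring
    have e2 : (2 : ℝ) ^ J = 2 ^ u' * 2 ^ k' := by rw [hu', pow_add]; ring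
    have d4 : 2 ^ u * (2 ^ k * |D|) ≤ 2 ^ u' + 2 := by
      have d5 : |2 ^ R * D| ≤ |2 ^ J * E| + 2 := by
        have := abs_sub_abs_le_abs_sub (2 ^ R * D) (2 ^ J * E)
        linarith
      rw [abs_mul, abs_mul, abs_of_pos (by positivity : (0 : ℝ) < 2 ^ J),
        abs_of_pos (by positivity : (0 : ℝ) < 2 ^ R), e1, e2] at d5
      have d6 : (2 : ℝ) ^ u' * 2 ^ k' * |E| ≤ 2 ^ u' := by
        have := mul_le_mul_of_nonneg_left d3 (by positivity : (0 : ℝ) ≤ 2 ^ u')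
        calc _ = 2 ^ u' * (2 ^ k' * |E|) := by ring
          _ ≤ 2 ^ u' * 1 := this
          _ = _ := by ring
      calc _ = 2 ^ u * 2 ^ k * |D| := by ring
        _ ≤ _ := d5
        _ ≤ _ := by linarith
    have d7 : (2 : ℝ) ^ u' ≤ 4 * 2 ^ u := by
      have e3 : (4 : ℝ) * 2 ^ u = 2 ^ (u + 2) := by
        rw [pow_add]
        ring
      rw [e3]
      exact pow_le_pow_right₀ one_le_two (by omega)
    have d8 : (1 : ℝ) ≤ 2 ^ u := one_le_pow₀ one_le_two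
    have d9 : 2 ^ k * |D| ≤ 6 := by
      have h3 : 2 ^ u * (2 ^ k * |D|) ≤ 2 ^ u * 6 := by linarith
      exact le_of_mul_le_mul_left h3 (by positivity)
    refine fl_near (c := 6) ?_ (by norm_num)
    rw [← mul_sub, ← hD, abs_mul, abs_of_pos pk]
    exact d9
  have s2 := few_tr h0 (fun ω => (zmV F hP y ε).X k₂ ω (σ i))
    (fun ω => F.X k₂' ω (ε (σ i))) (dB (zmV F hP y ε) σ i k₁)
    (dB F (fun j => ε (σ j)) i k₁')
    (fun ω => (F.T ω % 2 ^ P, (zmV F hP y ε).W ω)) (fun ω => (y ω, F.W ω)) (cA := k99)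
    (cB := (n + 1) * k99) (by
      refine few_dB hq _ _ _ i ?_ ?_
      · intro ω ω' _ _ hh
        have b1 := Prod.ext_iff.1 hh
        have b2 := Prod.ext_iff.1 b1.2
        exact toF ω ω' b2.1 b2.2 (σ i) k₁ k₁' (by rw [hR]; exact h1) h1J h1'
          (Prod.ext_iff.1 b1.1).1
      · intro ω ω' _ _ hh j hj
        have b1 := Prod.ext_iff.1 hh
        have b3 := Prod.ext_iff.1 b1.2
        have b2 := congrFun (Prod.ext_iff.1 b1.1).2 j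
        change (if j = i then 0 else (zmV F hP y ε).X (J - B - P) ω (σ j)) =
          (if j = i then 0 else (zmV F hP y ε).X (J - B - P) ω' (σ j)) at b2
        rw [if_neg hj, if_neg hj] at b2
        exact toF ω ω' b3.1 b3.2 (σ j) (J - B - P) J hR.ge le_rfl (by omega) b2)
    (by
      refine few1 hq _ _ ?_
      intro ω ω' _ _ hh
      have b1 := Prod.ext_iff.1 hh
      have b2 := Prod.ext_iff.1 b1.2
      exact ofF ω ω' b2.1 b2.2 (σ i) k₂ k₂' (by rw [hR]; exact h2) h2J h2' b1.1)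
    (by
      intro ω ω' _ _ hh
      have b1 := Prod.ext_iff.1 hh
      obtain ⟨b1, b2, b3, -, -, -⟩ := of_zmV F hP y ε b1.1 b1.2
      exact Prod.ext b3 (Prod.ext b1 b2))
  have s3 : CH q (fun ω => (zmV F hP y ε).X k₂ ω (σ i))
      (fun ω => (F.T ω % 2 ^ P,
        (dB (zmV F hP y ε) σ i k₁ ω, (((), (zmV F hP y ε).W ω) : Unit × _)))) ≤
      CH q (fun ω => (zmV F hP y ε).X k₂ ω (σ i))
        (fun ω => (dB (zmV F hP y ε) σ i k₁ ω, (F.T ω % 2 ^ P, (zmV F hP y ε).W ω))) := by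
    refine CH_mono_cond h0 fun ω ω' _ _ hh => ?_
    have b1 := Prod.ext_iff.1 hh
    have b2 := Prod.ext_iff.1 b1.2
    exact Prod.ext b2.1 (Prod.ext b1.1 (Prod.ext_iff.1 b2.2).2)
  have s4 : CH q (fun ω => (zmV F hP y ε).X k₂ ω (σ i))
      (fun ω => (F.T ω % 2 ^ P,
        (dB (zmV F hP y ε) σ i k₁ ω, (((), (zmV F hP y ε).W ω) : Unit × _)))) ≤
      CH q (fun ω => F.X k₂' ω (ε (σ i)))
        (fun ω => (dB F (fun j => ε (σ j)) i k₁' ω, (y ω, F.W ω))) + (k99 + (n + 1) * k99) :=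
    s3.trans s2
  linarith [s1, s4]

/-! ### The numbers of digits -/

theorem sc_le1 (v : Vz m) {Q : ℝ} (hQ : Q ≤ 1) : v.sc Q ≤ 1 := by
  have h1 := one_sub_sc v Q
  have hb1 := v.b1
  have hp1 := v.p1
  have h5 : 0 ≤ (1 - v.b) * (1 - v.p) * (1 - Q) :=
    mul_nonneg (mul_nonneg (by linarith) (by linarith)) (by linarith)
  linarith

theorem sc_nonneg (v : Vz m) {Q : ℝ} (hQ : 0 ≤ Q) : 0 ≤ v.sc Q := by
  have hb0 := v.b0
  have hb1 := v.b1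
  have hp0 := v.p0
  have hp1 := v.p1
  unfold Vz.sc
  have h5 : 0 ≤ (1 - v.p) * Q := mul_nonneg (by linarith) hQ
  have h6 : 0 ≤ (1 - v.b) * (v.p + (1 - v.p) * Q) := mul_nonneg (by linarith) (by linarith)
  linarith

theorem sc_mul (v : Vz m) (Q J : ℝ) :
    v.sc Q * J = (1 - Q) * ((v.b + (1 - v.b) * v.p) * J) + Q * J := by
  unfold Vz.sc
  ring

/-- The digits of the window and of the tube. -/
theorem bp_bd (v : Vz m) (J : ℕ) : (v.B J : ℝ) + v.P J ≤ (v.b + (1 - v.b) * v.p) * J ∧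
    (v.b + (1 - v.b) * v.p) * J ≤ (v.B J : ℝ) + v.P J + 2 ∧
    (v.R J : ℝ) = J - (v.B J + v.P J) := by
  have hb0 := v.b0
  have hp0 := v.p0
  have hp1 := v.p1
  have hJ0 : (0 : ℝ) ≤ J := Nat.cast_nonneg J
  obtain ⟨k1, k2, -⟩ := v.floor_le J
  have hBr : (v.B J : ℝ) ≤ v.b * J := Nat.floor_le (mul_nonneg hb0 hJ0)
  have hBr' : v.b * J < (v.B J : ℝ) + 1 := Nat.lt_floor_add_one _
  have hs1 : ((J - v.B J : ℕ) : ℝ) = J - v.B J := by rw [Nat.cast_sub k1]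
  have hPr : (v.P J : ℝ) ≤ v.p * (J - v.B J) := by
    rw [← hs1]
    exact Nat.floor_le (mul_nonneg hp0 (Nat.cast_nonneg _))
  have hPr' : v.p * (J - v.B J) < (v.P J : ℝ) + 1 := by
    rw [← hs1]
    exact Nat.lt_floor_add_one _
  have e1 : (v.b + (1 - v.b) * v.p) * (J : ℝ) = (1 - v.p) * (v.b * J) + v.p * J := by ring
  have e2 : v.p * ((J : ℝ) - v.B J) = v.p * J - v.p * v.B J := by ring
  refine ⟨?_, ?_, ?_⟩
  · have := mul_le_mul_of_nonneg_left hBr (by linarith : (0 : ℝ) ≤ 1 - v.p)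
    have e3 : (1 - v.p) * (v.B J : ℝ) = v.B J - v.p * v.B J := by ring
    rw [e1]
    rw [e2] at hPr
    rw [e3] at this
    linarith
  · have := mul_le_mul_of_nonneg_left hBr'.le (by linarith : (0 : ℝ) ≤ 1 - v.p)
    have e3 : (1 - v.p) * ((v.B J : ℝ) + 1) = v.B J - v.p * v.B J + (1 - v.p) := by ring
    rw [e1]
    rw [e2] at hPr'
    rw [e3] at this
    linarith
  · have e3 : (v.R J : ℝ) = ((J - v.B J : ℕ) : ℝ) - v.P J := by
      rw [← Nat.cast_sub k2]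
      rfl
    rw [e3, hs1]
    ring

theorem sc_fl1 (v : Vz m) (J : ℕ) {Q : ℝ} (hQ0 : 0 ≤ Q) (hQ1 : Q ≤ 1) :
    ⌊v.sc Q * (J : ℝ)⌋₊ ≤ v.B J + v.P J + ⌊Q * (v.R J : ℝ)⌋₊ + 2 := by
  obtain ⟨hBP1, hBP2, hRr⟩ := bp_bd v J
  have h5 : v.sc Q * (J : ℝ) < (v.B J : ℝ) + v.P J + ⌊Q * (v.R J : ℝ)⌋₊ + 3 := by
    have h7 := Nat.lt_floor_add_one (Q * (v.R J : ℝ))
    rw [sc_mul]
    have h9 := mul_le_mul_of_nonneg_left hBP2 (by linarith : (0 : ℝ) ≤ 1 - Q)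
    have e1 : Q * (v.R J : ℝ) = Q * J - Q * (v.B J + v.P J) := by rw [hRr]; ring
    have e2 : (1 - Q) * ((v.B J : ℝ) + v.P J + 2) =
        v.B J + v.P J + 2 - Q * (v.B J + v.P J) - 2 * Q := by ring
    rw [e2] at h9
    linarith
  have h6 : ((⌊v.sc Q * (J : ℝ)⌋₊ : ℕ) : ℝ) <
      ((v.B J + v.P J + ⌊Q * (v.R J : ℝ)⌋₊ + 3 : ℕ) : ℝ) := by
    push_cast
    exact (Nat.floor_le (mul_nonneg (sc_nonneg v hQ0) (Nat.cast_nonneg J))).trans_lt h5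
  have h7 : ⌊v.sc Q * (J : ℝ)⌋₊ < v.B J + v.P J + ⌊Q * (v.R J : ℝ)⌋₊ + 3 := by
    exact_mod_cast h6
  omega

theorem sc_fl2 (v : Vz m) (J : ℕ) {Q : ℝ} (hQ0 : 0 ≤ Q) (hQ1 : Q ≤ 1) :
    v.B J + v.P J + ⌊Q * (v.R J : ℝ)⌋₊ ≤ ⌊v.sc Q * (J : ℝ)⌋₊ + 2 := by
  obtain ⟨hBP1, hBP2, hRr⟩ := bp_bd v J
  have h5 : ((v.B J + v.P J + ⌊Q * (v.R J : ℝ)⌋₊ : ℕ) : ℝ) ≤ v.sc Q * (J : ℝ) := by
    push_cast
    have h7 : (⌊Q * (v.R J : ℝ)⌋₊ : ℝ) ≤ Q * v.R J :=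
      Nat.floor_le (mul_nonneg hQ0 (Nat.cast_nonneg _))
    rw [sc_mul]
    have h9 := mul_le_mul_of_nonneg_left hBP1 (by linarith : (0 : ℝ) ≤ 1 - Q)
    have e1 : Q * (v.R J : ℝ) = Q * J - Q * (v.B J + v.P J) := by rw [hRr]; ring
    have e2 : (1 - Q) * ((v.B J : ℝ) + v.P J) =
        v.B J + v.P J - Q * (v.B J + v.P J) := by ring
    rw [e2] at h9
    linarith
  have h6 := Nat.le_floor h5
  omega

/-- **The rates of the last coordinate behind records.** `S'`: a class of zooms of the coordinates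
`ε` with the numbers `L` of its closed labels and with an active coordinate `σ 0`; `w`: a window of
the zoom with the greedy order `σ`. -/
theorem rexq (n : ℕ) {x : ℝ} (hF : FZQ n x) {S : PCl m} {C₀ : ℝ}
    (hC₀ : 0 ≤ C₀) (htm : TmC S C₀) (v : Vz m) (ε : Fin n → Fin m) {S' : PCl n} (hne : S'.Ne)
    (hsub : ∀ (τ : ℝ) (J : ℕ) (F : Fam n J) (A : F.Ω → Prop), S'.St τ J F A →
      (RecV S v ε).St τ J F A)
    {L : Finset (Fin n) → Fin n → ℝ → ℝ → ℝ} (hL : LamW S' L) {N : ℚ → ℚ → ℝ} {al : ℝ}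
    {g₀ : ℝ → ℝ} (hal : 0 < al) (hg₀ : ∀ e : ℝ, 0 < e → 0 < g₀ e) (hN : ActM N al g₀)
    {σ : Fin n → Fin n} (hσ : Function.Injective σ)
    (hact : ∀ k : Fin n, (k : ℕ) = 0 → ActB N S' (σ k)) {w : ℝ} (hw : w ∈ Wv L σ) {i : Fin n}
    (hi : (i : ℕ) + 1 = n) {Q₁ Q₂ : ℝ} (hQ1 : vs L σ w n ≤ Q₁) (hQ12 : Q₁ ≤ Q₂) (hQ2 : Q₂ ≤ 1)
    {ρ : ℝ} (hρ : 0 < ρ) : Bas (pulV S v ε S') (fun J F A =>
      ((1 - x) * (v.sc Q₂ - v.sc Q₁) - ρ) * Real.log 2 * J ≤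
        CH (Pool.Agent.H49.Ent.cond F.p A True) (fun ω => F.X ⌊v.sc Q₂ * J⌋₊ ω (ε (σ i)))
          (fun ω => (dB F (fun j => ε (σ j)) i ⌊v.sc Q₁ * J⌋₊ ω, (v.y J F ω, F.W ω)))) := by
  classical
  obtain ⟨hw0, hw1, hgr, hct⟩ := hw
  have hb0 := v.b0
  have hb1 := v.b1
  have hp0 := v.p0
  have hp1 := v.p1
  obtain ⟨c, hc⟩ : ∃ c, c = (1 - v.b) * (1 - v.p) := ⟨_, rfl⟩
  have hc0 : 0 < c := by rw [hc]; exact mul_pos (by linarith) (by linarith)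
  have hc1 : c ≤ 1 := by
    rw [hc]
    exact mul_le_one₀ (by linarith) (by linarith) (by linarith)
  have hl2 : 0 < Real.log 2 := Real.log_pos one_lt_two
  have hl99 := k99_nonneg
  have hQ10 : 0 ≤ Q₁ := by
    have h1 := le_vs hL σ hw1.le n
    linarith
  have htm' : TmC S' (C₀ * (1 / c)) := by
    intro τ J F A hτ hA
    rw [hc]
    exact recV_tm hC₀ htm v ε τ J F A hτ (hsub τ J F A hA)
  have hpos' : Bas S' (fun _ F A => 0 < Pe F.p A) :=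
    ⟨1, one_pos, 0, fun J _ F A hA => (htm' 1 J F A one_pos hA).1⟩
  obtain ⟨X, hX⟩ : ∃ X, X = (1 - x) * (Q₂ - Q₁) := ⟨_, rfl⟩
  have hsum : (1 - x) * (v.sc Q₂ - v.sc Q₁) = c * X := by
    rw [hX, hc]
    unfold Vz.sc
    ring
  rw [hsum]
  -- the trivial case
  by_cases htriv : c * X - ρ ≤ 0
  · refine ⟨1, one_pos, 0, fun J _ F A hA => ?_⟩
    have hJ : (0 : ℝ) ≤ J := Nat.cast_nonneg J
    have h1 := (htm 1 J F A one_pos hA.1).1
    refine le_trans ?_ (CH_nonneg (isLaw_cond F.isLaw h1).nonneg _ _)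
    exact mul_nonpos_of_nonpos_of_nonneg (mul_nonpos_of_nonpos_of_nonneg htriv hl2.le) hJ
  push Not at htriv
  have hXρ : ρ < X := by
    have hX0 : 0 < X := by
      by_contra h
      push Not at h
      have := mul_nonpos_of_nonneg_of_nonpos hc0.le h
      linarith
    have : c * X ≤ X := by nlinarith
    linarith
  obtain ⟨τ₁, hτ₁, J₁, hex⟩ := vst_exq hF hne (mul_nonneg hC₀ (by positivity)) htm' hL hal hg₀ hN
    hpos' hσ hact hw0 hw1 hgr hct (ρ := ρ / 4) (by positivity) hi hQ1 hQ12 hQ2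
  rw [← hX] at hex
  obtain ⟨τ, hτ⟩ : ∃ τ, τ = min (c * τ₁) (ρ * Real.log 2 / (4 * (C₀ + 1))) := ⟨_, rfl⟩
  have hτ0 : 0 < τ := by
    rw [hτ]
    exact lt_min (by positivity) (by positivity)
  have hτa : 1 / c * τ ≤ τ₁ := by
    have h1 : τ ≤ c * τ₁ := by rw [hτ]; exact min_le_left _ _
    rw [one_div, ← div_eq_inv_mul, div_le_iff₀ hc0]
    linarith
  have hτb : C₀ * τ ≤ ρ * Real.log 2 / 4 := by
    have h1 : τ ≤ ρ * Real.log 2 / (4 * (C₀ + 1)) := by rw [hτ]; exact min_le_right _ _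
    rw [le_div_iff₀ (by positivity)] at h1
    nlinarith
  obtain ⟨J₃, hJ₃⟩ := exists_nat_ge (1 / c * J₁)
  obtain ⟨J₅, hJ₅⟩ := exists_nat_ge ((n + 2) * k99 / (ρ * Real.log 2 / 4))
  refine ⟨τ, hτ0, max J₃ J₅, fun J hJ F A hA => ?_⟩
  have j3 : (J₃ : ℝ) ≤ J := by exact_mod_cast (le_max_left _ _).trans hJ
  have j5 : (J₅ : ℝ) ≤ J := by exact_mod_cast (le_max_right _ _).trans hJ
  have hJ0 : (0 : ℝ) ≤ J := Nat.cast_nonneg J
  obtain ⟨k1, k2, k3⟩ := v.floor_le J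
  rw [← hc] at k3
  have g2 : (n + 2) * k99 ≤ ρ * Real.log 2 / 4 * J := by
    have := hJ₅.trans j5
    rw [div_le_iff₀ (by positivity)] at this
    linarith
  have hApos := (htm τ J F A hτ0 hA.1).1
  have hJ1 : J₁ ≤ v.R J := by
    have h1 : 1 / c * (J₁ : ℝ) ≤ 1 / c * v.R J := hJ₃.trans (j3.trans k3)
    have h2 : (J₁ : ℝ) ≤ v.R J := le_of_mul_le_mul_left h1 (by positivity)
    exact_mod_cast h2
  have hPJ : v.P J ≤ J := by omega
  have hq := isLaw_cond F.isLaw hApos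
  have t1 : TmQ F (Pool.Agent.H49.Ent.cond F.p A True) (C₀ * τ * J) :=
    (htm τ J F A hτ0 hA.1).2 hq
  have s3 : S'.St τ₁ (v.R J) (v.famV ε F k2) A := by
    have h1 := hA.2 k2
    rw [← hc] at h1
    exact S'.mono hτa h1
  have h1 := hex (v.R J) hJ1 (v.famV ε F k2) A s3 Unit (fun _ => ()) (fun _ => ())
    (fun _ _ => rfl)
  have h3 := transferQ F k2 (v.y J F) k1 (v.line J F) hq t1 hPJ ε σ i
    (k₁ := ⌊Q₁ * (v.R J : ℝ)⌋₊) (k₂ := ⌊Q₂ * (v.R J : ℝ)⌋₊) (k₁' := ⌊v.sc Q₁ * (J : ℝ)⌋₊)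
    (k₂' := ⌊v.sc Q₂ * (J : ℝ)⌋₊) (floor_leJ (hQ12.trans hQ2) (v.R J))
    (floor_leJ hQ2 (v.R J)) (floor_leJ (sc_le1 v (hQ12.trans hQ2)) J)
    (floor_leJ (sc_le1 v hQ2) J) (sc_fl1 v J hQ10 (hQ12.trans hQ2))
    (sc_fl2 v J (hQ10.trans hQ12) hQ2)
  have h4 : (X - ρ / 4) * Real.log 2 * (v.R J : ℝ) ≤
      CH (Pool.Agent.H49.Ent.cond F.p A True)
        (fun ω => F.X ⌊v.sc Q₂ * (J : ℝ)⌋₊ ω (ε (σ i)))
        (fun ω => (dB F (fun j => ε (σ j)) i ⌊v.sc Q₁ * (J : ℝ)⌋₊ ω, (v.y J F ω, F.W ω))) +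
        (n + 2) * k99 + C₀ * τ * J := h1.trans h3
  have h5 : (X - ρ / 4) * Real.log 2 * (c * J) ≤ (X - ρ / 4) * Real.log 2 * (v.R J : ℝ) := by
    refine mul_le_mul_of_nonneg_left ?_ (mul_nonneg (by linarith) hl2.le)
    have := k3
    rw [one_div, ← div_eq_inv_mul, le_div_iff₀ hc0] at this
    linarith
  have h7 : C₀ * τ * (J : ℝ) ≤ ρ * Real.log 2 / 4 * J := mul_le_mul_of_nonneg_right hτb hJ0
  have h8 : (X - ρ / 4) * Real.log 2 * (c * J) =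
      (c * X) * Real.log 2 * J - c * (ρ / 4 * Real.log 2 * J) := by ring
  have h9 : c * (ρ / 4 * Real.log 2 * J) ≤ ρ / 4 * Real.log 2 * J := by
    have : 0 ≤ ρ / 4 * Real.log 2 * J := by positivity
    nlinarith
  have h10 : (c * X - ρ) * Real.log 2 * J =
      (c * X) * Real.log 2 * J - ρ / 4 * Real.log 2 * J - ρ * Real.log 2 / 4 * J -
        ρ * Real.log 2 / 4 * J - ρ * Real.log 2 / 4 * J := by ring
  have h11 : 0 ≤ ρ * Real.log 2 / 4 * J := by positivity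
  show (c * X - ρ) * Real.log 2 * J ≤ CH (Pool.Agent.H49.Ent.cond F.p A True)
    (fun ω => F.X ⌊v.sc Q₂ * (J : ℝ)⌋₊ ω (ε (σ i)))
    (fun ω => (dB F (fun j => ε (σ j)) i ⌊v.sc Q₁ * (J : ℝ)⌋₊ ω, (v.y J F ω, F.W ω)))
  rw [h10]
  linarith

end Pool.FRX
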