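import Pool.Agent.H56.FRX.Exq
import Pool.Agent.H45.EXA.ExaR
import Pool.Agent.H45.EXA.Vst

/-!
# The rates of the last coordinate of a greedy order

`exqr`: the form of `exar` for the rates. `vst_exq`: the form of `vst_exa` for the rates: behind
the number of the closed labels of the last coordinate, at all windows with a greedy order.
-/

set_option autoImplicit false

namespace Pool.FRX

open Finset Real MvPolynomial
open Pool.Agent.H49.Ent Pool.Agent.H32.Dense Pool.STK Pool.KA Pool.KSAT Pool.K2S Pool.PB Pool.S6C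
open Pool.FLF (Fam.sub)
open Pool.GEN Pool.REX

variable {m n J : ℕ}

/-- **The rates at any real window.** Labels of the coordinates `ε k` over the coordinates `ε i`,
`i < j ≤ k`, with precision `s j - e` at the window `w₁`; no labels of the coordinates `ε j` with
precision `s j + 1 / (l + 1)` at the windows `w₁ + d l`, for all `l` with `e ≤ 1 / (l + 1)`. Then
the digits `Q₁ J, …, Q₂ J` of the last coordinate, above the precision `s j`, have at least the rate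
`1 - x` given the digits before, the other coordinates and any function which is closed at the
window `w₁`. -/
theorem exqr (n : ℕ) {x : ℝ} (hF : FZQ n x) : ∀ ρ al : ℝ, 0 < ρ → 0 < al → ∀ g₀ : ℝ → ℝ,
    (∀ ε : ℝ, 0 < ε → 0 < g₀ ε) → ∀ w₁ : ℝ, 0 < w₁ → w₁ < 1 →
    ∀ (s : Fin n → ℝ) (d : ℕ → ℝ), NumW w₁ s d → ∃ e : ℝ, 0 < e ∧
    ∀ i : Fin n, (i : ℕ) + 1 = n → ∀ Q₁ Q₂ : ℝ, s i ≤ Q₁ → Q₁ ≤ Q₂ → Q₂ ≤ 1 →
    ∀ (K₀ : ℕ) (N : ℚ → ℚ → ℝ), ActM N al g₀ → ∀ (m : ℕ) (C₀ : ℝ) (S : PCl m)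
    (ε : Fin n → Fin m), Function.Injective ε → 0 ≤ C₀ → TmC S C₀ →
    (∀ j k, j ≤ k → Bas S (fun J F A => Lb F ((Finset.Iio j).image ε) (ε k) K₀ ⌊e * J⌋₊ J
      ⌊w₁ * J⌋₊ ⌊min (rad s w₁ j + e) 1 * J⌋₊ ⌊(s j - e) * J⌋₊ A)) →
    (∀ l K : ℕ, e ≤ 1 / ((l : ℝ) + 1) → ∀ j : Fin n, s j + 1 / ((l : ℝ) + 1) ≤ 1 →
      Bas S (fun J F A => ¬ Lb F ((Finset.Iio j).image ε) (ε j) K ⌊d l * J⌋₊ J
        ⌊(w₁ + d l) * J⌋₊ ⌊(rad s w₁ j + d l) * J⌋₊ ⌊(s j + 1 / ((l : ℝ) + 1)) * J⌋₊ A)) →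
    (∀ k : Fin n, (k : ℕ) = 0 → ActB N S (ε k)) →
    Bas S (fun J F A => ∀ (V : Type) (z : PtT F → V) (z' : LnT F → V),
      (∀ ω, A ω → z (ptr F J ω) = z' (slam F ⌊w₁ * J⌋₊ ω)) →
      ((1 - x) * (Q₂ - Q₁) - ρ) * Real.log 2 * J ≤ CH (Pool.Agent.H49.Ent.cond F.p A True)
        (fun ω => F.X ⌊Q₂ * J⌋₊ ω (ε i))
        (fun ω => (dB F ε i ⌊Q₁ * J⌋₊ ω, (z' (slam F ⌊w₁ * J⌋₊ ω), F.W ω)))) := by
  intro ρ al hρ hal g₀ hg₀ w₁ hw0 hw11 s d hnum
  have h01 : (0 : ℝ) < 1 - w₁ := by linarith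
  -- the numbers of the zoom
  obtain ⟨sZ, hsZ⟩ : ∃ sZ : Fin n → ℝ, sZ = fun j => (s j - w₁) / (1 - w₁) := ⟨_, rfl⟩
  have hsZj : ∀ j, sZ j * (1 - w₁) = s j - w₁ := by
    intro j
    rw [hsZ]
    field_simp
  have hL : ∀ l : ℕ, ∃ L : ℕ, 2 * ((l : ℝ) + 1) / (1 - w₁) ≤ L + 1 ∧
      (L : ℝ) + 1 ≤ 3 * ((l : ℝ) + 1) / (1 - w₁) := by
    intro l
    obtain ⟨L, hL⟩ : ∃ L, L = ⌊2 * ((l : ℝ) + 1) / (1 - w₁)⌋₊ := ⟨_, rfl⟩
    have h0 : 0 ≤ 2 * ((l : ℝ) + 1) / (1 - w₁) := by positivity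
    refine ⟨L, ?_, ?_⟩
    · rw [hL]
      exact (Nat.lt_floor_add_one _).le
    · have h1 : (L : ℝ) ≤ 2 * ((l : ℝ) + 1) / (1 - w₁) := by
        rw [hL]
        exact Nat.floor_le h0
      have h2 : (1 : ℝ) ≤ ((l : ℝ) + 1) / (1 - w₁) := by
        rw [le_div_iff₀ h01]
        have : (0 : ℝ) ≤ l := Nat.cast_nonneg l
        linarith
      have e1 : 3 * ((l : ℝ) + 1) / (1 - w₁) = 2 * ((l : ℝ) + 1) / (1 - w₁) +
        ((l : ℝ) + 1) / (1 - w₁) := by ring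
      linarith
  choose L hL1 hL2 using hL
  obtain ⟨dZ, hdZ⟩ : ∃ dZ : ℕ → ℝ, dZ = fun l => min (d (L l) / 2) (1 / (4 * ((l : ℝ) + 1))) :=
    ⟨_, rfl⟩
  have hdZ0 : ∀ l, 0 < dZ l := by
    intro l
    rw [hdZ]
    exact lt_min (half_pos (hnum.d0 _)) (by positivity)
  have hnumZ : NumX sZ dZ := by
    rw [hsZ]
    refine ⟨fun a b hab => ?_, fun j => ?_, fun j => ?_, fun j hj => ?_, hdZ0⟩
    · exact div_le_div_of_nonneg_right (sub_le_sub_right (hnum.ms hab) _) h01.le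
    · exact div_nonneg (by linarith [hnum.sw j]) h01.le
    · rw [div_le_one h01]
      linarith [hnum.s1 j]
    · rw [hnum.z j hj, sub_self, zero_div]
  obtain ⟨eZ, heZ, hmain⟩ := hF (ρ / 2) al (half_pos hρ) hal (fun ε => min (g₀ (ε / 2)) 1)
    (fun ε hε => lt_min (hg₀ _ (half_pos hε)) one_pos) sZ dZ hnumZ
  obtain ⟨e, he⟩ : ∃ e, e = eZ * (1 - w₁) / 4 := ⟨_, rfl⟩
  have he0 : 0 < e := by
    rw [he]
    positivity
  refine ⟨e, he0, ?_⟩
  intro i₀ hi₀ Q₁ Q₂ hQ1 hQ12 hQ2 K₀ N hN m C₀ S ε hinj hC₀ hbs hatt habs hact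
  have hn : 0 < n := by omega
  obtain ⟨P₁, hP₁⟩ : ∃ P₁, P₁ = (Q₁ - w₁) / (1 - w₁) := ⟨_, rfl⟩
  obtain ⟨P₂, hP₂⟩ : ∃ P₂, P₂ = (Q₂ - w₁) / (1 - w₁) := ⟨_, rfl⟩
  have hPQ1 : w₁ + (1 - w₁) * P₁ = Q₁ := by
    rw [hP₁]
    field_simp
    ring
  have hPQ2 : w₁ + (1 - w₁) * P₂ = Q₂ := by
    rw [hP₂]
    field_simp
    ring
  have hsP : sZ i₀ ≤ P₁ := by
    rw [hP₁, hsZ]
    exact div_le_div_of_nonneg_right (sub_le_sub_right hQ1 _) h01.le
  have hP12 : P₁ ≤ P₂ := by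
    rw [hP₁, hP₂]
    exact div_le_div_of_nonneg_right (sub_le_sub_right hQ12 _) h01.le
  have hP21 : P₂ ≤ 1 := by
    rw [hP₂, div_le_one h01]
    linarith
  rcases Nat.eq_zero_or_pos n with h0 | -
  · omega
  obtain ⟨kap, hkap⟩ : ∃ kap, kap = ε ⟨0, hn⟩ := ⟨_, rfl⟩
  have hk0 : ∀ k : Fin n, (k : ℕ) = 0 → ε k = kap := fun k hk => by
    rw [hkap]
    congr 1
    exact Fin.ext hk
  have hpos : PosC S := fun τ J F A hτ hA => (hbs τ J F A hτ hA).1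
  have hactk : ActB N S kap := by
    rw [hkap]
    exact hact _ rfl
  have hradw : ∀ j : Fin n, w₁ + rad sZ 0 j * (1 - w₁) = rad s w₁ j := by
    intro j
    unfold rad
    split_ifs with h0
    · rw [zero_mul, add_zero]
    · rw [hsZj]
      ring
  have hmain' := hmain i₀ hi₀ P₁ P₂ hsP hP12 hP21 (K₀ + 1) (NZR S kap (al + 1) w₁)
    (ActM.real hpos hal.le hN hactk hw0.le hw11)
  have hcore := exq_core (ε := ε) hC₀ hbs hw0 hw11 (half_pos hρ) i₀ ((hnumZ.s0 i₀).trans hsP)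
    hP12 hP21 (c := (1 - x) * (P₂ - P₁) - ρ / 2) (Gr := fun J G => GraX (K₀ + 1) eZ sZ J G)
    (Bad := FBadX (NZR S kap (al + 1) w₁) sZ dZ eZ) hmain' (by
      intro i
      refine zbas_fbadR hbs hw0 hw11 hk0 (by linarith : 0 ≤ al + 1) (fun l K hl => ?_) i
      have a1 := hL1 l
      have a2 := hL2 l
      have l0 : (0 : ℝ) < (l : ℝ) + 1 := by positivity
      have L0 : (0 : ℝ) < (L l : ℝ) + 1 := by positivity
      have b1 : 1 / ((L l : ℝ) + 1) ≤ (1 - w₁) / (2 * ((l : ℝ) + 1)) := by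
        rw [div_le_div_iff₀ L0 (by positivity)]
        rw [div_le_iff₀ h01] at a1
        linarith
      have b2 : (1 - w₁) / (3 * ((l : ℝ) + 1)) ≤ 1 / ((L l : ℝ) + 1) := by
        rw [div_le_div_iff₀ (by positivity) L0]
        rw [le_div_iff₀ h01] at a2
        linarith
      have b3 : e ≤ 1 / ((L l : ℝ) + 1) := by
        refine le_trans ?_ b2
        rw [he, le_div_iff₀ (by positivity)]
        rw [le_div_iff₀ l0] at hl
        have h1 : eZ * ((l : ℝ) + 1) * (1 - w₁) ≤ 1 * (1 - w₁) :=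
          mul_le_mul_of_nonneg_right hl h01.le
        have e1 : eZ * (1 - w₁) / 4 * (3 * ((l : ℝ) + 1)) =
          3 / 4 * (eZ * ((l : ℝ) + 1) * (1 - w₁)) := by ring
        rw [e1]
        linarith
      have c1 : dZ l ≤ d (L l) / 2 := by rw [hdZ]; exact min_le_left _ _
      have c2 : dZ l ≤ 1 / (4 * ((l : ℝ) + 1)) := by rw [hdZ]; exact min_le_right _ _
      have c3 : 1 / (4 * ((l : ℝ) + 1)) = 1 / ((l : ℝ) + 1) / 4 := by
        field_simp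
      have c4 : (1 - w₁) / (2 * ((l : ℝ) + 1)) = 1 / ((l : ℝ) + 1) * (1 - w₁) / 2 := by
        field_simp
      have hq0 : 0 < 1 / ((l : ℝ) + 1) * (1 - w₁) := by positivity
      have c5 : dZ l * (1 - w₁) ≤ 1 / ((l : ℝ) + 1) * (1 - w₁) / 4 := by
        have := mul_le_mul_of_nonneg_right (c2.trans (le_of_eq c3)) h01.le
        linarith
      have c6 : dZ l * (1 - w₁) ≤ dZ l := by
        have := hdZ0 l
        nlinarith
      obtain ⟨ψ, hψ, τ₀, hτ₀, J₀, hz⟩ := zbxw hC₀ hbs (w₁ := w₁) (D := d (L l))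
        (dZ := dZ l) (h := 1 / ((l : ℝ) + 1)) (h₂ := 1 / ((L l : ℝ) + 1)) hw0 hw11
        (hnum.d1 _) (hdZ0 l) (by linarith [hnum.d0 (L l)]) (by positivity)
        (by linarith) hnum.sw hnum.ms hinj K (fun j hj => habs (L l) (K + 1) b3 j hj)
      refine ⟨ψ, hψ, τ₀, hτ₀, J₀, ?_⟩
      intro J hJ₀ F A hS κ z z' hcls hl' J' hJ' B hB hbt
      refine hz J hJ₀ F A hS κ (fun ω => z' (slam F ⌊w₁ * J⌋₊ ω))
        (fun ω ω' h1 h2 h3 => ?_) (fun ω ω' _ _ h3 => by rw [h3]) J' hJ'.le (by omega) hl' B hB ?_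
      · rw [← hcls ω h1, ← hcls ω' h2, h3]
      · obtain ⟨j, h1, h2⟩ := hbt
        rw [hsZ] at h1 h2
        exact ⟨j, h1, h2⟩) (by
      refine zgra hw0 hw11 heZ he0.le (e₁ := e) (by rw [he]; nlinarith [mul_pos heZ h01])
        hnumZ.s0 hnumZ.s1 hnumZ.z (P := fun j => s j - e) (R := fun j => min (rad s w₁ j + e) 1)
        (fun j => ?_) (fun j => ?_) hinj hatt
      · by_cases h1 : sZ j ≤ eZ
        · exact Or.inl h1
        · right
          have e1 : (sZ j - eZ) * (1 - w₁) = sZ j * (1 - w₁) - eZ * (1 - w₁) := by ring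
          rw [e1, hsZj, he]
          have := mul_pos heZ h01
          linarith
      · right
        by_cases h1 : 1 ≤ rad sZ 0 j + eZ
        · exact Or.inr ⟨h1, min_le_right _ _⟩
        · left
          push Not at h1
          rw [min_eq_left h1.le]
          have e1 : (rad sZ 0 j + eZ) * (1 - w₁) = rad sZ 0 j * (1 - w₁) + eZ * (1 - w₁) := by
            ring
          have h2 := hradw j
          have h3 := mul_pos heZ h01
          refine lt_of_le_of_lt (min_le_left _ _) ?_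
          rw [e1, he]
          linarith)
  rw [hPQ1, hPQ2] at hcore
  refine Bas.mono 0 hcore fun J _ F A h V z z' hcls => ?_
  refine le_trans ?_ (h V z z' hcls)
  refine mul_le_mul_of_nonneg_right (mul_le_mul_of_nonneg_right ?_
    (Real.log_pos one_lt_two).le) (Nat.cast_nonneg J)
  have e1 : ((1 - x) * (P₂ - P₁) - ρ / 2) * (1 - w₁) = (1 - x) * (Q₂ - Q₁) - ρ / 2 * (1 - w₁) := by
    linear_combination (1 - x) * hPQ2 - (1 - x) * hPQ1
  rw [e1]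
  have h2 : ρ / 2 * (1 - w₁) ≤ ρ / 2 := by nlinarith
  linarith

/-- **The rates behind the number of the closed labels of the last coordinate** of a greedy order,
given any function which is closed at the window. -/
theorem vst_exq {x : ℝ} (hF : FZQ n x) {S : PCl m} (hS : S.Ne) {C₀ : ℝ} (hC : 0 ≤ C₀) (htm : TmC S C₀)
    {L : Finset (Fin m) → Fin m → ℝ → ℝ → ℝ} (hL : LamW S L) {N : ℚ → ℚ → ℝ} {al : ℝ}
    (hal : 0 < al) {g₀ : ℝ → ℝ} (hg₀ : ∀ ε : ℝ, 0 < ε → 0 < g₀ ε) (hN : ActM N al g₀)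
    (hpos : Bas S (fun _ F A => 0 < Pe F.p A))
    {ε : Fin n → Fin m} (hε : Function.Injective ε) (hact : ∀ k : Fin n, (k : ℕ) = 0 →
      ActB N S (ε k)) {w : ℝ} (hw0 : 0 < w) (hw : w < 1) (hg : Vgr L ε w) (hc : Vct L ε w)
    {ρ : ℝ} (hρ : 0 < ρ) {i : Fin n} (hi : (i : ℕ) + 1 = n) {Q₁ Q₂ : ℝ} (hQ1 : vs L ε w n ≤ Q₁)
    (hQ12 : Q₁ ≤ Q₂) (hQ2 : Q₂ ≤ 1) :
    Bas S (fun J F A => ∀ (V : Type) (z : PtT F → V) (z' : LnT F → V),
      (∀ ω, A ω → z (ptr F J ω) = z' (slam F ⌊w * J⌋₊ ω)) →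
      ((1 - x) * (Q₂ - Q₁) - ρ) * Real.log 2 * J ≤ CH (Pool.Agent.H49.Ent.cond F.p A True)
        (fun ω => F.X ⌊Q₂ * J⌋₊ ω (ε i))
        (fun ω => (dB F ε i ⌊Q₁ * J⌋₊ ω, (z' (slam F ⌊w * J⌋₊ ω), F.W ω)))) := by
  obtain ⟨d, hd0, hd1, hd⟩ := vst_abs hL ε hw
  obtain ⟨s, hs⟩ : ∃ s : Fin n → ℝ, s = fun j : Fin n => vs L ε w (j + 1) := ⟨_, rfl⟩
  have hsj : ∀ j, s j = vs L ε w (j + 1) := fun j => by rw [hs]
  have hrad : ∀ j, rad s w j = vs L ε w j := fun j => by rw [hs]; exact rad_vs L ε w j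
  have hnum : NumW w s d := by
    refine ⟨fun a b hab => ?_, fun j => ?_, fun j => ?_, fun j hj => ?_, hd0, hd1⟩
    · rw [hsj, hsj]
      have : (a : ℕ) ≤ b := hab
      exact hg.mono hL hw.le (by omega)
    · rw [hsj]
      exact le_vs hL ε hw.le _
    · rw [hsj]
      exact vs_le1 hL ε hw.le _
    · rw [hsj, vs_succ]
      unfold vn
      have h1 : (Finset.Iio j).image ε = ∅ := by
        rw [Finset.image_eq_empty]
        ext x
        simp only [Finset.mem_Iio, Finset.notMem_empty, iff_false, not_lt, Fin.le_def]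
        omega
      rw [h1]
      exact hL.act hS hal (hN.q hg₀) (hact j hj) hpos hw0.le hw
  obtain ⟨e, he, hex⟩ := exqr n hF ρ al hρ hal g₀ hg₀ w hw0 hw s d hnum
  obtain ⟨K₀, hatt⟩ := vst_att hL hw0 hw hg hc he
  have h2 := hex i hi Q₁ Q₂ (by rw [hsj, hi]; exact hQ1) hQ12 hQ2 K₀ N hN m C₀ S ε hε hC htm
    (fun j k hjk => by
      rw [hrad, hsj]
      exact hatt j k hjk)
    (fun l K _ j hj => by
      rw [hrad, hsj]
      rw [hsj] at hj
      exact hd l K j hj) hact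
  exact h2

end Pool.FRX
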